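import Pool.Agent.W2helper20.BC.Stm

/-!
# Integrals along maximal geodesics
-/

set_option autoImplicit false

namespace Pool.Agent.W2helper20.BC

open Set Metric Filter Topology MeasureTheory
open scoped ContDiff InnerProductSpace ENNReal
open Pool.Agent.Q176.BR

variable {n : ℕ} {g g' : Fld n}

/-- A geodesic from boundary to boundary. -/
structure Chord (g : Fld n) (γ u : ℝ → E n) : Prop where
  geod : IsGeod g γ u
  zero : ‖γ 0‖ = 1
  one : ‖γ 1‖ = 1
  ne : u 0 ≠ 0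

theorem Chord.mem (hg : IsSimple g) {γ u : ℝ → E n} (h : Chord g γ u) {s : ℝ}
    (hs : s ∈ Ioo (0 : ℝ) 1) : γ s ∈ ball (0 : E n) 1 :=
  mem_ball_zero_iff.2 (h.geod.inner_mem hg h.ne hs)

theorem Chord.mem_iff (h1 : P_CHORD1) (hg : IsSimple g) {γ u : ℝ → E n} (h : Chord g γ u) {s : ℝ}
    (hs : s ∈ Ioo (0 : ℝ) 1) (r : ℝ) : (γ s, r • u s) ∈ DD g ↔ -s < r ∧ r < 1 - s := by
  have h2 := (h1 n g hg γ u h.geod h.zero h.one h.ne s hs r).1
  unfold DD
  simp only [mem_ofPred_eq]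
  rw [h2]
  exact ⟨fun h3 => h3.2, fun h3 => ⟨h.mem hg hs, h3⟩⟩

/-- The time of a maximal geodesic. -/
noncomputable def LL (g : Fld n) (p : E n × E n) : ℝ≥0∞ :=
  ∫⁻ t : ℝ, (DD g).indicator (fun _ => 1) (p.1, t • p.2)

theorem Chord.LL_eq (h1 : P_CHORD1) (hg : IsSimple g) {γ u : ℝ → E n} (h : Chord g γ u) {s : ℝ}
    (hs : s ∈ Ioo (0 : ℝ) 1) {k : ℝ} (hk : k ≠ 0) :
    LL g (γ s, k • u s) = ENNReal.ofReal |k⁻¹| := by
  have e : ∀ t : ℝ, (DD g).indicator (fun _ => (1 : ℝ≥0∞)) (γ s, t • (k • u s)) =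
      ((· * k) ⁻¹' Ioo (-s) (1 - s)).indicator (fun _ => (1 : ℝ≥0∞)) t := by
    intro t
    rw [smul_smul]
    by_cases ht : -s < t * k ∧ t * k < 1 - s
    · rw [indicator_of_mem ((h.mem_iff h1 hg hs _).2 ht), indicator_of_mem]
      exact ht
    · rw [indicator_of_notMem (fun h2 => ht ((h.mem_iff h1 hg hs _).1 h2)), indicator_of_notMem]
      exact ht
  unfold LL
  simp only [e]
  rw [lintegral_indicator (measurableSet_Ioo.preimage (by fun_prop)), lintegral_const,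
    Measure.restrict_apply_univ, Real.volume_preimage_mul_right hk, Real.volume_Ioo, one_mul]
  have e2 : 1 - s - -s = 1 := by ring
  rw [e2, ENNReal.ofReal_one, mul_one]

theorem rdist_le_len (hg : IsMetric g) {c : ℝ → E n} (hc : ContDiffOn ℝ 1 c (Icc 0 1))
    (hM : ∀ t ∈ Icc (0 : ℝ) 1, c t ∈ M n) : rdist g (c 0) (c 1) ≤ len g c := by
  refine csInf_le ⟨0, ?_⟩ ⟨c, hc, hM, rfl, rfl, rfl⟩
  rintro L ⟨d, -, -, -, -, rfl⟩
  unfold len
  exact intervalIntegral.integral_nonneg zero_le_one (fun t _ => Real.sqrt_nonneg _)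

/-- The comparison of the two integrals along a maximal geodesic. -/
theorem Chord.compare (hg : IsSimple g) (hg' : IsMetric g')
    (hd : ∀ p ∈ bdM n, ∀ q ∈ bdM n, rdist g p q ≤ rdist g' p q) {γ u : ℝ → E n}
    (h : Chord g γ u) :
    √(g (γ 0) (u 0) (u 0)) ≤ ∫ s in (0 : ℝ)..1, √(g' (γ s) (u s) (u s)) := by
  have m0 : (0 : ℝ) ∈ Icc (0 : ℝ) 1 := ⟨le_rfl, zero_le_one⟩
  have m1 : (1 : ℝ) ∈ Icc (0 : ℝ) 1 := ⟨zero_le_one, le_rfl⟩
  have e1 : √(g (γ 0) (u 0) (u 0)) = rdist g (γ 0) (γ 1) := by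
    rw [hg.rdist_eq (h.geod.mem 0 m0) (h.geod.mem 1 m1), h.geod.lg_eq hg m1, one_smul]
  have e2 : len g' γ = ∫ s in (0 : ℝ)..1, √(g' (γ s) (u s) (u s)) := by
    unfold len
    refine intervalIntegral.integral_congr (fun t ht => ?_)
    rw [uIcc_of_le zero_le_one] at ht
    rw [(h.geod.vel t ht).derivWithin (uniqueDiffOn_Icc (zero_lt_one (α := ℝ)) t ht)]
  rw [e1, ← e2]
  refine (hd _ (mem_sphere_zero_iff_norm.2 h.zero) _ (mem_sphere_zero_iff_norm.2 h.one)).trans ?_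
  exact rdist_le_len hg' h.geod.contDiffOn h.geod.mem

/-- The weight. -/
noncomputable def f1 (g g' : Fld n) (p : E n × E n) : ℝ≥0∞ :=
  ENNReal.ofReal (√(g p.1 p.2 p.2) * √(g' p.1 p.2 p.2))

/-- The weight. -/
noncomputable def f2 (g : Fld n) (p : E n × E n) : ℝ≥0∞ := ENNReal.ofReal (g p.1 p.2 p.2)

theorem form_smul (g : Fld n) (x v : E n) (k : ℝ) : g x (k • v) (k • v) = k ^ 2 * g x v v := by
  simp only [map_smul, smul_apply, smul_eq_mul]
  ring

theorem Chord.int_f2 (hg : IsSimple g) {γ u : ℝ → E n} (h : Chord g γ u) {s c : ℝ} (hc : 0 < c) :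
    ∫⁻ t in Ioo (-(s * c)) ((1 - s) * c), f2 g (γ (s + t / c), -(c⁻¹ • u (s + t / c))) =
      ENNReal.ofReal (c⁻¹ * g (γ 0) (u 0) (u 0)) := by
  have e : ∀ t ∈ Ioo (-(s * c)) ((1 - s) * c),
      f2 g (γ (s + t / c), -(c⁻¹ • u (s + t / c))) = ENNReal.ofReal (c⁻¹ ^ 2 * g (γ 0) (u 0) (u 0)) := by
    intro t ht
    have h1 : s + t / c ∈ Icc (0 : ℝ) 1 := by
      have h2 : -s < t / c := by rw [lt_div_iff₀ hc]; linarith [ht.1]
      have h3 : t / c < 1 - s := by rw [div_lt_iff₀ hc]; linarith [ht.2]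
      constructor <;> linarith
    unfold f2
    simp only
    rw [← neg_smul, form_smul, h.geod.speed hg.toIsMetric _ h1]
    congr 1
    ring
  rw [setLIntegral_congr_fun measurableSet_Ioo e, lintegral_const, Measure.restrict_apply_univ,
    Real.volume_Ioo]
  have e2 : (1 - s) * c - -(s * c) = c := by ring
  rw [e2, ← ENNReal.ofReal_mul (by
    have := hg.toIsMetric.nonneg (γ 0) (u 0)
    positivity)]
  congr 1
  field_simp

theorem Chord.int_f1 (hg : IsSimple g) (hg' : IsMetric g') {γ u : ℝ → E n} (h : Chord g γ u)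
    {s c : ℝ} (hc : 0 < c) :
    ∫⁻ t in Ioo (-(s * c)) ((1 - s) * c), f1 g g' (γ (s + t / c), -(c⁻¹ • u (s + t / c))) =
      ENNReal.ofReal (c⁻¹ * √(g (γ 0) (u 0) (u 0)) * ∫ s in (0 : ℝ)..1, √(g' (γ s) (u s) (u s))) := by
  have hcont : ContinuousOn (fun r => √(g' (γ r) (u r) (u r))) (Icc 0 1) := by
    have c1 : ContinuousOn (fun t => g' (γ t)) (Icc 0 1) :=
      hg'.smooth.continuous.comp_continuousOn h.geod.cont
    exact ContinuousOn.sqrt ((c1.clm_apply h.geod.contU).clm_apply h.geod.contU)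
  have hrange : ∀ t ∈ Icc (-(s * c)) ((1 - s) * c), s + t / c ∈ Icc (0 : ℝ) 1 := by
    intro t ht
    have h2 : -s ≤ t / c := by rw [le_div_iff₀ hc]; linarith [ht.1]
    have h3 : t / c ≤ 1 - s := by rw [div_le_iff₀ hc]; linarith [ht.2]
    constructor <;> linarith
  have e : ∀ t ∈ Ioo (-(s * c)) ((1 - s) * c),
      f1 g g' (γ (s + t / c), -(c⁻¹ • u (s + t / c))) = ENNReal.ofReal (c⁻¹ ^ 2 *
        √(g (γ 0) (u 0) (u 0)) * √(g' (γ (s + t / c)) (u (s + t / c)) (u (s + t / c)))) := by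
    intro t ht
    have h1 := hrange t ⟨ht.1.le, ht.2.le⟩
    unfold f1
    simp only
    rw [← neg_smul, form_smul, form_smul, h.geod.speed hg.toIsMetric _ h1, Real.sqrt_mul (sq_nonneg _),
      Real.sqrt_mul (sq_nonneg _), Real.sqrt_sq_eq_abs, abs_neg, abs_of_pos (inv_pos.2 hc)]
    congr 1
    ring
  have hcomp : ContinuousOn (fun t => c⁻¹ ^ 2 * √(g (γ 0) (u 0) (u 0)) *
      √(g' (γ (s + t / c)) (u (s + t / c)) (u (s + t / c)))) (Icc (-(s * c)) ((1 - s) * c)) := by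
    have h1 : ContinuousOn (fun t : ℝ => s + t / c) (Icc (-(s * c)) ((1 - s) * c)) := by fun_prop
    exact continuousOn_const.mul (hcont.comp h1 hrange)
  rw [setLIntegral_congr_fun measurableSet_Ioo e, ← ofReal_integral_eq_lintegral_ofReal]
  · congr 1
    rw [← integral_Ioc_eq_integral_Ioo, ← intervalIntegral.integral_of_le (by nlinarith),
      intervalIntegral.integral_const_mul]
    have h2 := intervalIntegral.integral_comp_div_add
      (f := fun r => √(g' (γ r) (u r) (u r))) (a := -(s * c)) (b := (1 - s) * c) hc.ne' s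
    have h3 : (fun t : ℝ => √(g' (γ (s + t / c)) (u (s + t / c)) (u (s + t / c)))) =
        fun t : ℝ => √(g' (γ (t / c + s)) (u (t / c + s)) (u (t / c + s))) := by
      funext t
      rw [add_comm]
    rw [h3, h2]
    have h4 : -(s * c) / c + s = 0 := by field_simp; ring
    have h5 : (1 - s) * c / c + s = 1 := by field_simp; ring
    rw [h4, h5, smul_eq_mul]
    field_simp
  · exact (hcomp.integrableOn_Icc).mono_set Ioo_subset_Icc_self
  · refine ae_of_all _ (fun t => ?_)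
    have := Real.sqrt_nonneg (g (γ 0) (u 0) (u 0))
    have := Real.sqrt_nonneg (g' (γ (s + t / c)) (u (s + t / c)) (u (s + t / c)))
    simp only [Pi.zero_apply]
    positivity

/-- The comparison of the two integrals. -/
theorem Chord.int_le (hg : IsSimple g) (hg' : IsMetric g')
    (hd : ∀ p ∈ bdM n, ∀ q ∈ bdM n, rdist g p q ≤ rdist g' p q) {γ u : ℝ → E n}
    (h : Chord g γ u) {s c : ℝ} (hc : 0 < c) :
    ∫⁻ t in Ioo (-(s * c)) ((1 - s) * c), f2 g (γ (s + t / c), -(c⁻¹ • u (s + t / c))) ≤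
    ∫⁻ t in Ioo (-(s * c)) ((1 - s) * c), f1 g g' (γ (s + t / c), -(c⁻¹ • u (s + t / c))) := by
  rw [h.int_f2 hg hc, h.int_f1 hg hg' hc]
  refine ENNReal.ofReal_le_ofReal ?_
  have h1 := h.compare hg hg' hd
  have h2 : g (γ 0) (u 0) (u 0) = √(g (γ 0) (u 0) (u 0)) * √(g (γ 0) (u 0) (u 0)) :=
    (Real.mul_self_sqrt (hg.toIsMetric.nonneg _ _)).symm
  have h3 : 0 ≤ c⁻¹ * √(g (γ 0) (u 0) (u 0)) := by
    have := Real.sqrt_nonneg (g (γ 0) (u 0) (u 0))
    positivity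
  calc c⁻¹ * g (γ 0) (u 0) (u 0) = c⁻¹ * √(g (γ 0) (u 0) (u 0)) * √(g (γ 0) (u 0) (u 0)) := by
        rw [mul_assoc, ← h2]
    _ ≤ _ := mul_le_mul_of_nonneg_left h1 h3

end Pool.Agent.W2helper20.BC
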