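import Pool.Agent.W2helper20.BC.Avg1

/-!
# Averaging over the maximal geodesics
-/

set_option autoImplicit false

namespace Pool.Agent.W2helper20.BC

open Set Metric Filter Topology MeasureTheory
open scoped ContDiff InnerProductSpace ENNReal
open Pool.Agent.Q176.BR

variable {n : ℕ} {g g' : Fld n}

theorem rho_continuous (hm : IsMetric g) : Continuous (rho g) := by
  unfold rho
  refine Continuous.matrix_det ?_
  refine continuous_matrix (fun i j => ?_)
  exact (hm.smooth.continuous.clm_apply continuous_const).clm_apply continuous_const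

/-- The density. -/
noncomputable def rh (g : Fld n) (x : E n) : ℝ≥0∞ := ENNReal.ofReal (rho g x)

theorem rh_measurable (hm : IsMetric g) : Measurable (rh g) :=
  ENNReal.measurable_ofReal.comp (rho_continuous hm).measurable

theorem D_meas (hg : IsSimple g) {x : E n} (hx : x ∈ ball (0 : E n) 1) : MeasurableSet (D g x) :=
  (hg.isOpen_lg (ball_subset_closedBall hx)).measurableSet

theorem ind_eq (hg : IsSimple g) (H : E n × E n → ℝ≥0∞) :
    ∫⁻ x in ball (0 : E n) 1, ∫⁻ v in D g x, H (x, v) = ∫⁻ x, ∫⁻ v, (DD g).indicator H (x, v) := by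
  rw [← lintegral_indicator measurableSet_ball]
  refine lintegral_congr (fun x => ?_)
  by_cases hx : x ∈ ball (0 : E n) 1
  · rw [indicator_of_mem hx, ← lintegral_indicator (D_meas hg hx)]
    refine lintegral_congr (fun v => ?_)
    by_cases hv : v ∈ D g x
    · rw [indicator_of_mem hv, indicator_of_mem]
      exact ⟨hx, hv⟩
    · rw [indicator_of_notMem hv, indicator_of_notMem]
      exact fun h => hv h.2
  · rw [indicator_of_notMem hx]
    have e : ∀ v, (DD g).indicator H (x, v) = 0 := fun v => indicator_of_notMem (fun h => hx h.1) _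
    simp only [e, lintegral_zero]

/-- Invariance under the reversal, with indicator functions. -/
theorem inv_ind (hI : P_INV) (hg : IsSimple g) {R : E n × E n → E n × E n}
    (hR : EqOn R (rev g) (DD g)) {F : E n × E n → ℝ≥0∞} (hF : Measurable F) :
    ∫⁻ x, ∫⁻ v, (DD g).indicator (fun p => F p * rh g p.1) (x, v) =
      ∫⁻ x, ∫⁻ v, (DD g).indicator (fun p => F (R p) * rh g p.1) (x, v) := by
  have h1 := hI n g hg F hF
  have h2 := ind_eq hg (fun p => F p * rh g p.1)
  have h3 := ind_eq hg (fun p => F (rev g p) * rh g p.1)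
  have h4 : (DD g).indicator (fun p => F (R p) * rh g p.1) =
      (DD g).indicator (fun p => F (rev g p) * rh g p.1) := by
    refine indicator_congr (fun p hp => ?_)
    rw [hR hp]
  rw [h4, ← h2, ← h3]
  exact h1

/-- Scaling. -/
theorem lint_smul {t : ℝ} (ht : t ≠ 0) {G : E n → ℝ≥0∞} (hG : Measurable G) :
    ∫⁻ v, G (t • v) = ENNReal.ofReal |(t ^ n)⁻¹| * ∫⁻ w, G w := by
  have h1 : ∫⁻ v, G (t • v) = ∫⁻ w, G w ∂(Measure.map (fun v : E n => t • v) volume) := by
    rw [lintegral_map hG (by fun_prop)]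
  rw [h1, Measure.map_addHaar_smul volume ht, lintegral_smul_measure, smul_eq_mul,
    finrank_euclideanSpace, Fintype.card_fin]

/-- The flow at the time `t`, up to the sign of the velocity. -/
noncomputable def fl (R : E n × E n → E n × E n) (t : ℝ) (p : E n × E n) : E n × E n :=
  ((R (p.1, t • p.2)).1, t⁻¹ • (R (p.1, t • p.2)).2)

/-- Invariance under the flow. -/
theorem inv_flow (hI : P_INV) (hg : IsSimple g) (hDD : MeasurableSet (DD g))
    {R : E n × E n → E n × E n} (hRm : Measurable R) (hR : EqOn R (rev g) (DD g))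
    {F : E n × E n → ℝ≥0∞} (hF : Measurable F) {t : ℝ} (ht : t ≠ 0) :
    ∫⁻ x, ∫⁻ v, (DD g).indicator (fun _ => F (x, v) * rh g x) (x, t • v) =
      ∫⁻ x, ∫⁻ v, (DD g).indicator (fun _ => F (fl R t (x, v)) * rh g x) (x, t • v) := by
  have hrh := rh_measurable hg.toIsMetric
  have hF' : Measurable (fun p : E n × E n => F (p.1, t⁻¹ • p.2)) := hF.comp (by fun_prop)
  have h1 := inv_ind hI hg hR hF'
  have e1 : ∀ x : E n, ∫⁻ v, (DD g).indicator (fun _ => F (x, v) * rh g x) (x, t • v) =
      ENNReal.ofReal |(t ^ n)⁻¹| *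
        ∫⁻ w, (DD g).indicator (fun p : E n × E n => F (p.1, t⁻¹ • p.2) * rh g p.1) (x, w) := by
    intro x
    have h2 : Measurable (fun w => (DD g).indicator
        (fun p : E n × E n => F (p.1, t⁻¹ • p.2) * rh g p.1) (x, w)) :=
      ((hF'.mul (hrh.comp measurable_fst)).indicator hDD).comp (by fun_prop)
    rw [← lint_smul ht h2]
    refine lintegral_congr (fun v => ?_)
    by_cases hv : (x, t • v) ∈ DD g
    · rw [indicator_of_mem hv, indicator_of_mem hv]
      simp only
      rw [smul_smul, inv_mul_cancel₀ ht, one_smul]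
    · rw [indicator_of_notMem hv, indicator_of_notMem hv]
  have e2 : ∀ x : E n, ∫⁻ v, (DD g).indicator (fun _ => F (fl R t (x, v)) * rh g x) (x, t • v) =
      ENNReal.ofReal |(t ^ n)⁻¹| *
        ∫⁻ w, (DD g).indicator (fun p : E n × E n => F ((R p).1, t⁻¹ • (R p).2) * rh g p.1) (x, w) := by
    intro x
    have h2 : Measurable (fun w => (DD g).indicator
        (fun p : E n × E n => F ((R p).1, t⁻¹ • (R p).2) * rh g p.1) (x, w)) :=
      (((hF'.comp hRm).mul (hrh.comp measurable_fst)).indicator hDD).comp (by fun_prop)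
    rw [← lint_smul ht h2]
    refine lintegral_congr (fun v => ?_)
    by_cases hv : (x, t • v) ∈ DD g
    · rw [indicator_of_mem hv, indicator_of_mem hv]
      rfl
    · rw [indicator_of_notMem hv, indicator_of_notMem hv]
  simp only [e1, e2]
  rw [lintegral_const_mul, lintegral_const_mul, h1]
  · exact (((hF'.comp hRm).mul (hrh.comp measurable_fst)).indicator hDD).lintegral_prod_right'
  · exact ((hF'.mul (hrh.comp measurable_fst)).indicator hDD).lintegral_prod_right'

theorem LL_measurable (hDD : MeasurableSet (DD g)) : Measurable (LL g) := by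
  have h1 : Measurable (fun q : (E n × E n) × ℝ =>
      (DD g).indicator (fun _ => (1 : ℝ≥0∞)) (q.1.1, q.2 • q.1.2)) :=
    (measurable_const.indicator hDD).comp (by fun_prop)
  exact h1.lintegral_prod_right'

theorem ind_split (a : ℝ≥0∞) (p : E n × E n) : (DD g).indicator (fun _ => a) p =
    (DD g).indicator (fun _ => (1 : ℝ≥0∞)) p * a := by
  by_cases hp : p ∈ DD g
  · rw [indicator_of_mem hp, indicator_of_mem hp, one_mul]
  · rw [indicator_of_notMem hp, indicator_of_notMem hp, zero_mul]

/-- The indicator as a function of a point and the time. -/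
noncomputable def ii (g : Fld n) (q : (E n × E n) × ℝ) : ℝ≥0∞ :=
  (DD g).indicator (fun _ => (1 : ℝ≥0∞)) (q.1.1, q.2 • q.1.2)

theorem ii_meas (hDD : MeasurableSet (DD g)) : Measurable (ii g) :=
  (measurable_const.indicator hDD).comp (by fun_prop)

theorem fl_meas {R : E n × E n → E n × E n} (hRm : Measurable R) :
    Measurable (fun q : (E n × E n) × ℝ => fl R q.2 q.1) := by
  unfold fl
  have h1 : Measurable (fun q : (E n × E n) × ℝ => R (q.1.1, q.2 • q.1.2)) := hRm.comp (by fun_prop)
  exact h1.fst.prodMk (Measurable.smul (measurable_snd.inv) h1.snd)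

theorem tonelli {H : (E n × E n) × ℝ → ℝ≥0∞} (hH : Measurable H) :
    ∫⁻ t : ℝ, ∫⁻ x, ∫⁻ v, H ((x, v), t) = ∫⁻ x, ∫⁻ v, ∫⁻ t, H ((x, v), t) := by
  have e1 : ∀ t : ℝ, ∫⁻ x, ∫⁻ v, H ((x, v), t) =
      ∫⁻ p : E n × E n, H (p, t) ∂((volume : Measure (E n)).prod (volume : Measure (E n))) := by
    intro t
    exact (lintegral_prod (fun p : E n × E n => H (p, t))
      (hH.comp (by fun_prop : Measurable (fun p : E n × E n => (p, t)))).aemeasurable).symm
  simp only [e1]
  have h1 : Measurable (fun q : ℝ × (E n × E n) => H (q.2, q.1)) :=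
    hH.comp (by fun_prop : Measurable (fun q : ℝ × (E n × E n) => (q.2, q.1)))
  refine (lintegral_lintegral_swap (f := fun (t : ℝ) (p : E n × E n) => H (p, t))
    h1.aemeasurable).trans ?_
  exact lintegral_prod (fun p : E n × E n => ∫⁻ t, H (p, t))
    (hH.lintegral_prod_right').aemeasurable

theorem key (hm : IsMetric g) (hDD : MeasurableSet (DD g)) {G : (E n × E n) × ℝ → ℝ≥0∞}
    (hG : Measurable G) :
    ∫⁻ t : ℝ, ∫⁻ x, ∫⁻ v, (DD g).indicator (fun _ => G ((x, v), t) * rh g x) (x, t • v) =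
      ∫⁻ x, ∫⁻ v, (∫⁻ t, (DD g).indicator (fun _ => G ((x, v), t)) (x, t • v)) * rh g x := by
  have hrh := rh_measurable hm
  have hm1 : Measurable (fun q : (E n × E n) × ℝ => ii g q * (G q * rh g q.1.1)) :=
    (ii_meas hDD).mul (hG.mul (hrh.comp (by fun_prop)))
  have e1 := tonelli hm1
  have e2 : ∀ t : ℝ, ∀ x v : E n, (DD g).indicator (fun _ => G ((x, v), t) * rh g x) (x, t • v) =
      ii g ((x, v), t) * (G ((x, v), t) * rh g x) := fun t x v => ind_split _ _
  simp only [e2]
  refine e1.trans ?_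
  refine lintegral_congr (fun x => lintegral_congr (fun v => ?_))
  have h3 : Measurable (fun t : ℝ => ii g ((x, v), t) * G ((x, v), t)) :=
    ((ii_meas hDD).mul hG).comp (by fun_prop : Measurable (fun t : ℝ => ((x, v), t)))
  have h4 : ∫⁻ t, (DD g).indicator (fun _ => G ((x, v), t)) (x, t • v) =
      ∫⁻ t : ℝ, ii g ((x, v), t) * G ((x, v), t) :=
    lintegral_congr (fun t => ind_split _ _)
  rw [h4]
  refine Eq.trans ?_ (lintegral_mul_const (rh g x) h3)
  refine lintegral_congr (fun t => ?_)
  exact (mul_assoc _ _ _).symm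

/-- The averaged identity. -/
theorem avg (hI : P_INV) (hg : IsSimple g) (hDD : MeasurableSet (DD g))
    {R : E n × E n → E n × E n} (hRm : Measurable R) (hR : EqOn R (rev g) (DD g))
    {F : E n × E n → ℝ≥0∞} (hF : Measurable F) :
    ∫⁻ x, ∫⁻ v, LL g (x, v) * F (x, v) * rh g x =
      ∫⁻ x, ∫⁻ v, (∫⁻ t, (DD g).indicator (fun _ => F (fl R t (x, v))) (x, t • v)) * rh g x := by
  -- the integrals over time
  have h0 : ∫⁻ t : ℝ, ∫⁻ x, ∫⁻ v, (DD g).indicator (fun _ => F (x, v) * rh g x) (x, t • v) =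
      ∫⁻ t : ℝ, ∫⁻ x, ∫⁻ v, (DD g).indicator (fun _ => F (fl R t (x, v)) * rh g x) (x, t • v) := by
    refine lintegral_congr_ae ?_
    have h1 : ∀ᵐ t : ℝ, t ≠ 0 := by
      rw [ae_iff]
      simp
    filter_upwards [h1] with t ht using inv_flow hI hg hDD hRm hR hF ht
  have k1 := key hg.toIsMetric hDD (G := fun q => F q.1) (hF.comp measurable_fst)
  have k2 := key hg.toIsMetric hDD (G := fun q => F (fl R q.2 q.1)) (hF.comp (fl_meas hRm))
  refine Eq.trans ?_ (k1.symm.trans (h0.trans k2))
  refine lintegral_congr (fun x => lintegral_congr (fun v => ?_))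
  have h5 : Measurable (fun t : ℝ => ii g ((x, v), t)) :=
    (ii_meas hDD).comp (by fun_prop : Measurable (fun t : ℝ => ((x, v), t)))
  have h6 : LL g (x, v) * F (x, v) = ∫⁻ t : ℝ, ii g ((x, v), t) * F (x, v) :=
    (lintegral_mul_const (F (x, v)) h5).symm
  have h7 : LL g (x, v) * F (x, v) = ∫⁻ t : ℝ, (DD g).indicator (fun _ => F (x, v)) (x, t • v) :=
    h6.trans (lintegral_congr (fun t => (ind_split _ _).symm))
  rw [h7]

end Pool.Agent.W2helper20.BC
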