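import Pool.Agent.W2helper20.BC.Avg2

/-!
# Averaging over the maximal geodesics: the comparison
-/

set_option autoImplicit false

namespace Pool.Agent.W2helper20.BC

open Set Metric Filter Topology MeasureTheory
open scoped ContDiff InnerProductSpace ENNReal
open Pool.Agent.Q176.BR

variable {n : ℕ} {g g' : Fld n}

/-- The unit ball bundle. -/
def BB (g : Fld n) : Set (E n × E n) := {p | g p.1 p.2 p.2 ≤ 1}

theorem form_cont (hm : IsMetric g) : Continuous (fun p : E n × E n => g p.1 p.2 p.2) :=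
  ((hm.smooth.continuous.comp continuous_fst).clm_apply continuous_snd).clm_apply continuous_snd

theorem BB_meas (hm : IsMetric g) : MeasurableSet (BB g) :=
  (isClosed_le (form_cont hm) continuous_const).measurableSet

theorem BBx_meas (hm : IsMetric g) (x : E n) : MeasurableSet {v | g x v v ≤ 1} :=
  (BB_meas hm).preimage (by fun_prop : Measurable (fun v : E n => (x, v)))

/-- The integrand divided by the time. -/
noncomputable def FF (g : Fld n) (f : E n × E n → ℝ≥0∞) (p : E n × E n) : ℝ≥0∞ :=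
  f p * (BB g).indicator (fun _ => 1) p * (LL g p)⁻¹

theorem FF_meas (hm : IsMetric g) (hDD : MeasurableSet (DD g)) {f : E n × E n → ℝ≥0∞}
    (hf : Measurable f) : Measurable (FF g f) :=
  (hf.mul (measurable_const.indicator (BB_meas hm))).mul (LL_measurable hDD).inv

theorem f1_meas (hm : IsMetric g) (hm' : IsMetric g') : Measurable (f1 g g') := by
  refine ENNReal.measurable_ofReal.comp (Continuous.measurable ?_)
  exact (form_cont hm).sqrt.mul (form_cont hm').sqrt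

theorem f2_meas (hm : IsMetric g) : Measurable (f2 g) :=
  ENNReal.measurable_ofReal.comp (form_cont hm).measurable

theorem chord_exists (h2 : P_CHORD2) (hg : IsSimple g) {x v : E n} (hx : x ∈ ball (0 : E n) 1)
    (hv : v ≠ 0) : ∃ (γ u : ℝ → E n) (s c : ℝ), Chord g γ u ∧ s ∈ Ioo (0 : ℝ) 1 ∧ 0 < c ∧
      x = γ s ∧ v = c⁻¹ • u s := by
  obtain ⟨γ, u, s, c, h, h0, h1, hn, hs, hc, hx1, hu⟩ := h2 n g hg x hx v hv
  refine ⟨γ, u, s, c, ⟨h, h0, h1, hn⟩, hs, hc, hx1.symm, ?_⟩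
  rw [hu, smul_smul, inv_mul_cancel₀ hc.ne', one_smul]

theorem LL_out {x v : E n} (hx : x ∉ ball (0 : E n) 1) : LL g (x, v) = 0 := by
  unfold LL
  have e : ∀ t : ℝ, (DD g).indicator (fun _ => (1 : ℝ≥0∞)) ((x, v).1, t • (x, v).2) = 0 :=
    fun t => indicator_of_notMem (fun h => hx h.1) _
  simp only [e, lintegral_zero]

theorem ae_ne_zero (hn : 2 ≤ n) : ∀ᵐ v : E n, v ≠ 0 := by
  have : Nonempty (Fin n) := ⟨⟨0, by omega⟩⟩
  exact Measure.ae_ne volume 0

theorem lhs_eq (h1 : P_CHORD1) (h2 : P_CHORD2) (hn : 2 ≤ n) (hg : IsSimple g)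
    (f : E n × E n → ℝ≥0∞) :
    ∫⁻ x in ball (0 : E n) 1, ∫⁻ v in {v | g x v v ≤ 1}, f (x, v) * rh g x =
      ∫⁻ x, ∫⁻ v, LL g (x, v) * FF g f (x, v) * rh g x := by
  rw [← lintegral_indicator measurableSet_ball]
  refine lintegral_congr (fun x => ?_)
  by_cases hx : x ∈ ball (0 : E n) 1
  · rw [indicator_of_mem hx, ← lintegral_indicator (BBx_meas hg.toIsMetric x)]
    refine lintegral_congr_ae ?_
    filter_upwards [ae_ne_zero hn] with v hv
    obtain ⟨γ, u, s, c, h, hs, hc, rfl, rfl⟩ := chord_exists h2 hg hx hv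
    have e : LL g (γ s, c⁻¹ • u s) = ENNReal.ofReal c := by
      rw [h.LL_eq h1 hg hs (inv_ne_zero hc.ne'), inv_inv, abs_of_pos hc]
    have e0 : ENNReal.ofReal c ≠ 0 := (ENNReal.ofReal_pos.2 hc).ne'
    have e1 : ENNReal.ofReal c * (ENNReal.ofReal c)⁻¹ = 1 :=
      ENNReal.mul_inv_cancel e0 ENNReal.ofReal_ne_top
    unfold FF
    rw [e]
    by_cases hb : g (γ s) (c⁻¹ • u s) (c⁻¹ • u s) ≤ 1
    · rw [indicator_of_mem (show c⁻¹ • u s ∈ {v | g (γ s) v v ≤ 1} from hb),
        indicator_of_mem (show (γ s, c⁻¹ • u s) ∈ BB g from hb), mul_one,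
        mul_left_comm, e1, mul_one]
    · rw [indicator_of_notMem (show c⁻¹ • u s ∉ {v | g (γ s) v v ≤ 1} from hb),
        indicator_of_notMem (show (γ s, c⁻¹ • u s) ∉ BB g from hb), mul_zero, zero_mul, mul_zero,
        zero_mul]
  · rw [indicator_of_notMem hx]
    simp only [LL_out hx, zero_mul, lintegral_zero]

theorem rhs_eq (h1 : P_CHORD1) (hg : IsSimple g) {R : E n × E n → E n × E n}
    (hR : EqOn R (rev g) (DD g)) (f : E n × E n → ℝ≥0∞) (hf : Measurable f) {γ u : ℝ → E n}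
    (h : Chord g γ u) {s c : ℝ} (hs : s ∈ Ioo (0 : ℝ) 1) (hc : 0 < c) :
    ∫⁻ t, (DD g).indicator (fun _ => FF g f (fl R t (γ s, c⁻¹ • u s))) (γ s, t • (c⁻¹ • u s)) =
      (∫⁻ t in Ioo (-(s * c)) ((1 - s) * c), f (γ (s + t / c), -(c⁻¹ • u (s + t / c)))) *
        ((BB g).indicator (fun _ => 1) (γ s, c⁻¹ • u s) * (ENNReal.ofReal c)⁻¹) := by
  have hne : (BB g).indicator (fun _ => (1 : ℝ≥0∞)) (γ s, c⁻¹ • u s) * (ENNReal.ofReal c)⁻¹ ≠ ⊤ := by
    refine ENNReal.mul_ne_top ?_ ?_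
    · refine ne_top_of_le_ne_top ENNReal.one_ne_top ?_
      exact indicator_le_self' (fun _ _ => zero_le) _
    · exact ENNReal.inv_ne_top.2 (ENNReal.ofReal_pos.2 hc).ne'
  rw [← lintegral_mul_const' _ _ hne, ← lintegral_indicator measurableSet_Ioo]
  refine lintegral_congr_ae ?_
  have hae : ∀ᵐ t : ℝ, t ≠ 0 := by
    rw [ae_iff]
    simp
  filter_upwards [hae] with t ht
  have e0 : t • (c⁻¹ • u s) = (t / c) • u s := by rw [smul_smul, div_eq_mul_inv]
  rw [e0]
  by_cases hi : t ∈ Ioo (-(s * c)) ((1 - s) * c)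
  · have h3 : -s < t / c ∧ t / c < 1 - s := by
      constructor
      · rw [lt_div_iff₀ hc]; linarith [hi.1]
      · rw [div_lt_iff₀ hc]; exact hi.2
    have hD : (γ s, (t / c) • u s) ∈ DD g := (h.mem_iff h1 hg hs _).2 h3
    rw [indicator_of_mem hD, indicator_of_mem hi]
    obtain ⟨h4, h5⟩ := (h1 n g hg γ u h.geod h.zero h.one h.ne s hs (t / c)).2 h3.1 h3.2
    have h6 : fl R t (γ s, c⁻¹ • u s) = (γ (s + t / c), -(c⁻¹ • u (s + t / c))) := by
      unfold fl
      simp only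
      rw [e0, hR hD]
      unfold rev
      simp only
      rw [h4, h5]
      refine Prod.ext rfl ?_
      simp only
      rw [smul_neg, smul_smul]
      congr 2
      field_simp
    rw [h6]
    have hst : s + t / c ∈ Ioo (0 : ℝ) 1 := ⟨by linarith [h3.1], by linarith [h3.2]⟩
    have h7 : LL g (γ (s + t / c), -(c⁻¹ • u (s + t / c))) = ENNReal.ofReal c := by
      rw [← neg_smul, h.LL_eq h1 hg hst (neg_ne_zero.2 (inv_ne_zero hc.ne')), inv_neg, inv_inv, abs_neg,
        abs_of_pos hc]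
    have h8 : (BB g).indicator (fun _ => (1 : ℝ≥0∞)) (γ (s + t / c), -(c⁻¹ • u (s + t / c))) =
        (BB g).indicator (fun _ => (1 : ℝ≥0∞)) (γ s, c⁻¹ • u s) := by
      have h9 : g (γ (s + t / c)) (-(c⁻¹ • u (s + t / c))) (-(c⁻¹ • u (s + t / c))) =
          g (γ s) (c⁻¹ • u s) (c⁻¹ • u s) := by
        rw [← neg_smul, form_smul, form_smul, h.geod.speed hg.toIsMetric _ ⟨hst.1.le, hst.2.le⟩,
          h.geod.speed hg.toIsMetric _ ⟨hs.1.le, hs.2.le⟩]
        ring
      by_cases hb : g (γ s) (c⁻¹ • u s) (c⁻¹ • u s) ≤ 1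
      · rw [indicator_of_mem (show (γ s, c⁻¹ • u s) ∈ BB g from hb), indicator_of_mem]
        exact h9.le.trans hb
      · rw [indicator_of_notMem (show (γ s, c⁻¹ • u s) ∉ BB g from hb), indicator_of_notMem]
        intro h10
        exact hb (h9.ge.trans h10)
    unfold FF
    rw [h7, h8, mul_assoc]
  · have hD : (γ s, (t / c) • u s) ∉ DD g := by
      intro h3
      obtain ⟨h4, h5⟩ := (h.mem_iff h1 hg hs _).1 h3
      refine hi ⟨?_, ?_⟩
      · rw [lt_div_iff₀ hc] at h4; linarith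
      · rw [div_lt_iff₀ hc] at h5; exact h5
    rw [indicator_of_notMem hD, indicator_of_notMem hi]

theorem p_AVG (hI : P_INV) (hM : P_MEAS) (h1 : P_CHORD1) (h2 : P_CHORD2) : P_AVG := by
  intro n g g' hn hg hg' hd
  obtain ⟨hDD, R, hRm, hR⟩ := hM n g hg
  have e1 := lhs_eq h1 h2 hn hg (f2 g)
  have e2 := lhs_eq h1 h2 hn hg (f1 g g')
  have a1 := avg hI hg hDD hRm hR (FF_meas hg.toIsMetric hDD (f2_meas hg.toIsMetric))
  have a2 := avg hI hg hDD hRm hR (FF_meas hg.toIsMetric hDD (f1_meas hg.toIsMetric hg'))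
  refine (e1.trans a1).le.trans (LE.le.trans ?_ (e2.trans a2).ge)
  refine lintegral_mono (fun x => ?_)
  refine lintegral_mono_ae ?_
  filter_upwards [ae_ne_zero hn] with v hv
  by_cases hx : x ∈ ball (0 : E n) 1
  · obtain ⟨γ, u, s, c, h, hs, hc, rfl, rfl⟩ := chord_exists h2 hg hx hv
    rw [rhs_eq h1 hg hR (f2 g) (f2_meas hg.toIsMetric) h hs hc,
      rhs_eq h1 hg hR (f1 g g') (f1_meas hg.toIsMetric hg') h hs hc]
    exact mul_le_mul_left (mul_le_mul_left (h.int_le hg hg' hd hc) _) _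
  · have e : ∀ (a : ℝ → ℝ≥0∞) (t : ℝ), (DD g).indicator (fun _ => a t) (x, t • v) = 0 :=
      fun a t => indicator_of_notMem (fun h => hx h.1) _
    have e3 := e (fun t => FF g (f2 g) (fl R t (x, v)))
    simp only [e3, lintegral_zero, zero_mul]
    exact zero_le

end Pool.Agent.W2helper20.BC
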