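import Pool.Agent.W2helper20.BC.Stm2
import Pool.Agent.W2helper20.BC.Avg3
import Pool.Agent.W2helper53.BC.Fin

/-!
# Averaging over the maximal geodesics: the equality case
-/

set_option autoImplicit false

namespace Pool.Agent.W2helper20.BC

open Set Metric Filter Topology MeasureTheory
open scoped ContDiff InnerProductSpace ENNReal
open Pool.Agent.Q176.BR

variable {n : ℕ} {g h : Fld n}

theorem Chord.compare' (hg : IsSimple g) (hl : LenGe g h) {γ u : ℝ → E n} (hc : Chord g γ u) :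
    √(g (γ 0) (u 0) (u 0)) ≤ ∫ s in (0 : ℝ)..1, √(h (γ s) (u s) (u s)) := by
  have m0 : (0 : ℝ) ∈ Icc (0 : ℝ) 1 := ⟨le_rfl, zero_le_one⟩
  have m1 : (1 : ℝ) ∈ Icc (0 : ℝ) 1 := ⟨zero_le_one, le_rfl⟩
  have e1 : √(g (γ 0) (u 0) (u 0)) = rdist g (γ 0) (γ 1) := by
    rw [hg.rdist_eq (hc.geod.mem 0 m0) (hc.geod.mem 1 m1), hc.geod.lg_eq hg m1, one_smul]
  have e2 : len h γ = ∫ s in (0 : ℝ)..1, √(h (γ s) (u s) (u s)) := by
    unfold len
    refine intervalIntegral.integral_congr (fun t ht => ?_)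
    rw [uIcc_of_le zero_le_one] at ht
    rw [(hc.geod.vel t ht).derivWithin (uniqueDiffOn_Icc (zero_lt_one (α := ℝ)) t ht)]
  rw [e1, ← e2]
  exact hl γ hc.geod.contDiffOn hc.geod.mem (mem_sphere_zero_iff_norm.2 hc.zero)
    (mem_sphere_zero_iff_norm.2 hc.one)

theorem Chord.int_f1' (hg : IsSimple g) (hh : Continuous h) {γ u : ℝ → E n} (hch : Chord g γ u)
    {s c : ℝ} (hc : 0 < c) :
    ∫⁻ t in Ioo (-(s * c)) ((1 - s) * c), f1 g h (γ (s + t / c), -(c⁻¹ • u (s + t / c))) =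
      ENNReal.ofReal (c⁻¹ * √(g (γ 0) (u 0) (u 0)) * ∫ s in (0 : ℝ)..1, √(h (γ s) (u s) (u s))) := by
  have hcont : ContinuousOn (fun r => √(h (γ r) (u r) (u r))) (Icc 0 1) := by
    have c1 : ContinuousOn (fun t => h (γ t)) (Icc 0 1) := hh.comp_continuousOn hch.geod.cont
    exact ContinuousOn.sqrt ((c1.clm_apply hch.geod.contU).clm_apply hch.geod.contU)
  have hrange : ∀ t ∈ Icc (-(s * c)) ((1 - s) * c), s + t / c ∈ Icc (0 : ℝ) 1 := by
    intro t ht
    have h2 : -s ≤ t / c := by rw [le_div_iff₀ hc]; linarith [ht.1]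
    have h3 : t / c ≤ 1 - s := by rw [div_le_iff₀ hc]; linarith [ht.2]
    constructor <;> linarith
  have e : ∀ t ∈ Ioo (-(s * c)) ((1 - s) * c),
      f1 g h (γ (s + t / c), -(c⁻¹ • u (s + t / c))) = ENNReal.ofReal (c⁻¹ ^ 2 *
        √(g (γ 0) (u 0) (u 0)) * √(h (γ (s + t / c)) (u (s + t / c)) (u (s + t / c)))) := by
    intro t ht
    have h1 := hrange t ⟨ht.1.le, ht.2.le⟩
    unfold f1
    simp only
    rw [← neg_smul, form_smul, form_smul, hch.geod.speed hg.toIsMetric _ h1, Real.sqrt_mul (sq_nonneg _),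
      Real.sqrt_mul (sq_nonneg _), Real.sqrt_sq_eq_abs, abs_neg, abs_of_pos (inv_pos.2 hc)]
    congr 1
    ring
  have hcomp : ContinuousOn (fun t => c⁻¹ ^ 2 * √(g (γ 0) (u 0) (u 0)) *
      √(h (γ (s + t / c)) (u (s + t / c)) (u (s + t / c)))) (Icc (-(s * c)) ((1 - s) * c)) := by
    have h1 : ContinuousOn (fun t : ℝ => s + t / c) (Icc (-(s * c)) ((1 - s) * c)) := by fun_prop
    exact continuousOn_const.mul (hcont.comp h1 hrange)
  rw [setLIntegral_congr_fun measurableSet_Ioo e, ← ofReal_integral_eq_lintegral_ofReal]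
  · congr 1
    rw [← integral_Ioc_eq_integral_Ioo, ← intervalIntegral.integral_of_le (by nlinarith),
      intervalIntegral.integral_const_mul]
    have h2 := intervalIntegral.integral_comp_div_add
      (f := fun r => √(h (γ r) (u r) (u r))) (a := -(s * c)) (b := (1 - s) * c) hc.ne' s
    have h3 : (fun t : ℝ => √(h (γ (s + t / c)) (u (s + t / c)) (u (s + t / c)))) =
        fun t : ℝ => √(h (γ (t / c + s)) (u (t / c + s)) (u (t / c + s))) := by
      funext t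
      rw [add_comm]
    rw [h3, h2]
    have h4 : -(s * c) / c + s = 0 := by field_simp; ring
    have h5 : (1 - s) * c / c + s = 1 := by field_simp; ring
    rw [h4, h5, smul_eq_mul]
    field_simp
  · exact (hcomp.integrableOn_Icc).mono_set Ioo_subset_Icc_self
  · refine ae_of_all _ (fun t => ?_)
    have := Real.sqrt_nonneg (g (γ 0) (u 0) (u 0))
    have := Real.sqrt_nonneg (h (γ (s + t / c)) (u (s + t / c)) (u (s + t / c)))
    simp only [Pi.zero_apply]
    positivity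

theorem Chord.int_le' (hg : IsSimple g) (hh : Continuous h) (hl : LenGe g h) {γ u : ℝ → E n}
    (hch : Chord g γ u) {s c : ℝ} (hc : 0 < c) :
    ∫⁻ t in Ioo (-(s * c)) ((1 - s) * c), f2 g (γ (s + t / c), -(c⁻¹ • u (s + t / c))) ≤
    ∫⁻ t in Ioo (-(s * c)) ((1 - s) * c), f1 g h (γ (s + t / c), -(c⁻¹ • u (s + t / c))) := by
  rw [hch.int_f2 hg hc, hch.int_f1' hg hh hc]
  refine ENNReal.ofReal_le_ofReal ?_
  have h1 := hch.compare' hg hl
  have h2 : g (γ 0) (u 0) (u 0) = √(g (γ 0) (u 0) (u 0)) * √(g (γ 0) (u 0) (u 0)) :=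
    (Real.mul_self_sqrt (hg.toIsMetric.nonneg _ _)).symm
  have h3 : 0 ≤ c⁻¹ * √(g (γ 0) (u 0) (u 0)) := by
    have := Real.sqrt_nonneg (g (γ 0) (u 0) (u 0))
    positivity
  calc c⁻¹ * g (γ 0) (u 0) (u 0) = c⁻¹ * √(g (γ 0) (u 0) (u 0)) * √(g (γ 0) (u 0) (u 0)) := by
        rw [mul_assoc, ← h2]
    _ ≤ _ := mul_le_mul_of_nonneg_left h1 h3

/-- Equality. -/
theorem Chord.int_eq (hg : IsSimple g) (hh : Continuous h) {γ u : ℝ → E n}
    (hch : Chord g γ u) {s c : ℝ} (hc : 0 < c)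
    (he : ∫⁻ t in Ioo (-(s * c)) ((1 - s) * c), f2 g (γ (s + t / c), -(c⁻¹ • u (s + t / c))) =
      ∫⁻ t in Ioo (-(s * c)) ((1 - s) * c), f1 g h (γ (s + t / c), -(c⁻¹ • u (s + t / c)))) :
    ∫ t in (0 : ℝ)..1, √(h (γ t) (u t) (u t)) = √(g (γ 0) (u 0) (u 0)) := by
  rw [hch.int_f2 hg hc, hch.int_f1' hg hh hc] at he
  have hpos : 0 < g (γ 0) (u 0) (u 0) := hg.pos _ _ hch.ne
  have hκ : 0 < √(g (γ 0) (u 0) (u 0)) := Real.sqrt_pos.2 hpos
  have h2 : g (γ 0) (u 0) (u 0) = √(g (γ 0) (u 0) (u 0)) * √(g (γ 0) (u 0) (u 0)) :=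
    (Real.mul_self_sqrt hpos.le).symm
  have hL : 0 ≤ ∫ t in (0 : ℝ)..1, √(h (γ t) (u t) (u t)) :=
    intervalIntegral.integral_nonneg zero_le_one (fun t _ => Real.sqrt_nonneg _)
  rw [ENNReal.ofReal_eq_ofReal_iff (by positivity) (by positivity)] at he
  have h3 : c⁻¹ * √(g (γ 0) (u 0) (u 0)) ≠ 0 := by positivity
  have h4 : c⁻¹ * √(g (γ 0) (u 0) (u 0)) * √(g (γ 0) (u 0) (u 0)) =
      c⁻¹ * √(g (γ 0) (u 0) (u 0)) * ∫ t in (0 : ℝ)..1, √(h (γ t) (u t) (u t)) := by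
    rw [← he, mul_assoc, ← h2]
  exact (mul_left_cancel₀ h3 h4).symm

theorem f1_meas' (hm : IsMetric g) (hh : Continuous h) : Measurable (f1 g h) := by
  refine ENNReal.measurable_ofReal.comp (Continuous.measurable ?_)
  have h1 : Continuous (fun p : E n × E n => h p.1 p.2 p.2) :=
    ((hh.comp continuous_fst).clm_apply continuous_snd).clm_apply continuous_snd
  exact (form_cont hm).sqrt.mul h1.sqrt

/-- The averaged integrand. -/
noncomputable def BI (g : Fld n) (R : E n × E n → E n × E n) (f : E n × E n → ℝ≥0∞) (p : E n × E n) : ℝ≥0∞ :=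
  (∫⁻ t : ℝ, (DD g).indicator (fun _ => FF g f (fl R t p)) (p.1, t • p.2)) * rh g p.1

theorem BI_meas (hm : IsMetric g) (hDD : MeasurableSet (DD g)) {R : E n × E n → E n × E n}
    (hRm : Measurable R) {f : E n × E n → ℝ≥0∞} (hf : Measurable f) : Measurable (BI g R f) := by
  have h1 : Measurable (fun q : (E n × E n) × ℝ => ii g q * FF g f (fl R q.2 q.1)) :=
    (ii_meas hDD).mul ((FF_meas hm hDD hf).comp (fl_meas hRm))
  have h2 : BI g R f = fun p => (∫⁻ t : ℝ, ii g (p, t) * FF g f (fl R t p)) * rh g p.1 := by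
    funext p
    unfold BI
    congr 1
    exact lintegral_congr (fun t => ind_split _ _)
  rw [h2]
  exact (h1.lintegral_prod_right').mul ((rh_measurable hm).comp measurable_fst)

theorem BI_out {R : E n × E n → E n × E n} {f : E n × E n → ℝ≥0∞} {x v : E n}
    (hx : x ∉ ball (0 : E n) 1) : BI g R f (x, v) = 0 := by
  have e : ∀ (a : ℝ → ℝ≥0∞) (t : ℝ), (DD g).indicator (fun _ => a t) (x, t • v) = 0 :=
    fun a t => indicator_of_notMem (fun h => hx h.1) _
  have e3 := e (fun t => FF g f (fl R t (x, v)))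
  unfold BI
  simp only [e3, lintegral_zero, zero_mul]

theorem A2_eq (h1 : P_CHORD1) (h2 : P_CHORD2) (hI : P_INV) (hn : 2 ≤ n) (hg : IsSimple g)
    (hDD : MeasurableSet (DD g)) {R : E n × E n → E n × E n} (hRm : Measurable R)
    (hR : EqOn R (rev g) (DD g)) : A2 g = ∫⁻ x, ∫⁻ v, BI g R (f2 g) (x, v) :=
  (lhs_eq h1 h2 hn hg (f2 g)).trans (avg hI hg hDD hRm hR (FF_meas hg.toIsMetric hDD (f2_meas hg.toIsMetric)))

theorem A1_eq (h1 : P_CHORD1) (h2 : P_CHORD2) (hI : P_INV) (hn : 2 ≤ n) (hg : IsSimple g)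
    (hh : Continuous h) (hDD : MeasurableSet (DD g)) {R : E n × E n → E n × E n} (hRm : Measurable R)
    (hR : EqOn R (rev g) (DD g)) : A1 g h = ∫⁻ x, ∫⁻ v, BI g R (f1 g h) (x, v) :=
  (lhs_eq h1 h2 hn hg (f1 g h)).trans
    (avg hI hg hDD hRm hR (FF_meas hg.toIsMetric hDD (f1_meas' hg.toIsMetric hh)))

theorem BI_le (h1 : P_CHORD1) (h2 : P_CHORD2) (hg : IsSimple g) (hh : Continuous h)
    (hl : LenGe g h) {R : E n × E n → E n × E n} (hR : EqOn R (rev g) (DD g)) (x : E n) {v : E n}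
    (hv : v ≠ 0) : BI g R (f2 g) (x, v) ≤ BI g R (f1 g h) (x, v) := by
  by_cases hx : x ∈ ball (0 : E n) 1
  · obtain ⟨γ, u, s, c, hch, hs, hc, rfl, rfl⟩ := chord_exists h2 hg hx hv
    unfold BI
    simp only
    rw [rhs_eq h1 hg hR (f2 g) (f2_meas hg.toIsMetric) hch hs hc,
      rhs_eq h1 hg hR (f1 g h) (f1_meas' hg.toIsMetric hh) hch hs hc]
    exact mul_le_mul_left (mul_le_mul_left (hch.int_le' hg hh hl hc) _) _
  · rw [BI_out hx]
    exact zero_le

theorem A2_ne_top (hn : 2 ≤ n) (hm : IsMetric g) : A2 g ≠ ⊤ := by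
  obtain ⟨C, hC, hT⟩ := Pool.Agent.W2helper53.BC.p_TRACE n (by omega)
  have e : ∀ x : E n, ∫⁻ v in {v | g x v v ≤ 1}, ENNReal.ofReal (g x v v) * ENNReal.ofReal (rho g x) =
      ENNReal.ofReal (C * n / √(rho g x) * rho g x) := by
    intro x
    have h1 := (Pool.Agent.W2helper53.BC.pointwise (by omega) hC hT (hm.symm x) (hm.pos x) (hm.symm x)
      (hm.pos x)).1
    rw [lintegral_mul_const' _ _ ENNReal.ofReal_ne_top, h1, ← ENNReal.ofReal_mul (by positivity)]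
    rfl
  have hρ : ∀ x, 0 < rho g x := hm.det_pos
  unfold A2
  simp only [e]
  have hcont : Continuous (fun x => C * n / √(rho g x) * rho g x) :=
    (continuous_const.div (rho_continuous hm).sqrt (fun x => (Real.sqrt_pos.2 (hρ x)).ne')).mul
      (rho_continuous hm)
  have hint : IntegrableOn (fun x => C * n / √(rho g x) * rho g x) (ball (0 : E n) 1) :=
    (hcont.continuousOn.integrableOn_compact (isCompact_closedBall (0 : E n) 1)).mono_set
      ball_subset_closedBall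
  rw [← ofReal_integral_eq_lintegral_ofReal hint]
  · exact ENNReal.ofReal_ne_top
  · refine ae_of_all _ (fun x => ?_)
    have := hρ x
    simp only [Pi.zero_apply]
    positivity

theorem p_AVG2 (hI : P_INV) (hM : P_MEAS) (h1 : P_CHORD1) (h2 : P_CHORD2) : P_AVG2 := by
  intro n g h hn hg hsem hl
  have hh : Continuous h := hsem.smooth.continuous
  obtain ⟨hDD, R, hRm, hR⟩ := hM n g hg
  have e2 := A2_eq h1 h2 hI hn hg hDD hRm hR
  have e1 := A1_eq h1 h2 hI hn hg hh hDD hRm hR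
  have hle : ∀ x : E n, ∀ᵐ v : E n, BI g R (f2 g) (x, v) ≤ BI g R (f1 g h) (x, v) := by
    intro x
    filter_upwards [ae_ne_zero hn] with v hv using BI_le h1 h2 hg hh hl hR x hv
  have hle2 : ∀ x : E n, ∫⁻ v, BI g R (f2 g) (x, v) ≤ ∫⁻ v, BI g R (f1 g h) (x, v) :=
    fun x => lintegral_mono_ae (hle x)
  refine ⟨e2.le.trans ((lintegral_mono hle2).trans e1.ge), fun hA => ?_⟩
  have m1 := BI_meas hg.toIsMetric hDD hRm (f1_meas' hg.toIsMetric hh)
  have m2 := BI_meas hg.toIsMetric hDD hRm (f2_meas hg.toIsMetric)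
  have hfin : ∫⁻ x, ∫⁻ v, BI g R (f2 g) (x, v) ≠ ⊤ := by
    rw [← e2]
    exact A2_ne_top hn hg.toIsMetric
  have hx1 : (fun x => ∫⁻ v, BI g R (f2 g) (x, v)) =ᵐ[volume] fun x => ∫⁻ v, BI g R (f1 g h) (x, v) := by
    refine ae_eq_of_ae_le_of_lintegral_le (ae_of_all _ hle2) hfin (m1.lintegral_prod_right').aemeasurable ?_
    rw [← e1, ← e2]
    exact hA
  have hx2 : ∀ᵐ x : E n, ∫⁻ v, BI g R (f2 g) (x, v) < ⊤ := ae_lt_top (m2.lintegral_prod_right') hfin
  filter_upwards [hx1, hx2] with x hx3 hx4 hx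
  have hv1 : (fun v => BI g R (f2 g) (x, v)) =ᵐ[volume] fun v => BI g R (f1 g h) (x, v) := by
    refine ae_eq_of_ae_le_of_lintegral_le (hle x) hx4.ne ?_ hx3.ge
    exact (m1.comp (by fun_prop : Measurable (fun v : E n => (x, v)))).aemeasurable
  filter_upwards [hv1] with v hv2 hgv hv γ u s c hch hs hc hγ hu
  subst hγ
  have hv3 : v = c⁻¹ • u s := by rw [hu, smul_smul, inv_mul_cancel₀ hc.ne', one_smul]
  subst hv3
  unfold BI at hv2
  simp only at hv2
  rw [rhs_eq h1 hg hR (f2 g) (f2_meas hg.toIsMetric) hch hs hc,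
    rhs_eq h1 hg hR (f1 g h) (f1_meas' hg.toIsMetric hh) hch hs hc] at hv2
  have hρ : 0 < rho g (γ s) := hg.toIsMetric.det_pos _
  have hB : (BB g).indicator (fun _ => (1 : ℝ≥0∞)) (γ s, c⁻¹ • u s) = 1 :=
    indicator_of_mem (show (γ s, c⁻¹ • u s) ∈ BB g from hgv) _
  rw [hB, one_mul, mul_assoc, mul_assoc] at hv2
  refine hch.int_eq (s := s) hg hh hc ?_
  have hk0 : (ENNReal.ofReal c)⁻¹ * rh g (γ s) ≠ 0 := by
    refine mul_ne_zero (ENNReal.inv_ne_zero.2 ENNReal.ofReal_ne_top) ?_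
    exact (ENNReal.ofReal_pos.2 hρ).ne'
  have hk1 : (ENNReal.ofReal c)⁻¹ * rh g (γ s) ≠ ⊤ :=
    ENNReal.mul_ne_top (ENNReal.inv_ne_top.2 (ENNReal.ofReal_pos.2 hc).ne') ENNReal.ofReal_ne_top
  exact (ENNReal.mul_left_inj hk0 hk1).1 hv2

end Pool.Agent.W2helper20.BC
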