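import Pool.Agent.W2helper20.BC.Stm

/-!
# Maximal geodesics of a simple metric (pieces CHORD1 and CHORD2)
-/

set_option autoImplicit false

namespace Pool.Agent.W2helper20.BC

open Set Metric Filter Topology
open scoped ContDiff InnerProductSpace
open Pool.Agent.Q176.BR

variable {n : ℕ} {g : Fld n}

/-- A part of a geodesic, in either direction. -/
theorem isExp_part {γ u : ℝ → E n} (h : IsGeod g γ u) {s t : ℝ} (hs : s ∈ Icc (0 : ℝ) 1)
    (ht : t ∈ Icc (0 : ℝ) 1) : IsExp g (γ s) ((t - s) • u s) (γ t) := by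
  have h1 := (h.affine s (t - s) (fun r hr => ⟨by nlinarith [hs.1, ht.1, hr.1, hr.2],
    by nlinarith [hs.2, ht.2, hr.1, hr.2]⟩)).isExp
  simpa using h1

theorem lg_part (hg : IsSimple g) {γ u : ℝ → E n} (h : IsGeod g γ u) {s t : ℝ}
    (hs : s ∈ Icc (0 : ℝ) 1) (ht : t ∈ Icc (0 : ℝ) 1) :
    lg g (γ s) (γ t) = (t - s) • u s :=
  (hg.eq_lg (h.mem s hs) (isExp_part h hs ht)).symm

theorem ex_part (hg : IsSimple g) {γ u : ℝ → E n} (h : IsGeod g γ u) {s t : ℝ}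
    (hs : s ∈ Icc (0 : ℝ) 1) (ht : t ∈ Icc (0 : ℝ) 1) :
    ex g (γ s) ((t - s) • u s) = γ t :=
  (hg.eq_ex (h.mem s hs) (isExp_part h hs ht)).symm

/-- The geodesic to an inner point does not meet the boundary after the start. -/
theorem norm_lt_of_mem_D (hg : IsSimple g) {x v z : E n} (hx : x ∈ M n) (hv : v ∈ D g x)
    (hv0 : v ≠ 0) {θ : ℝ} (h0 : 0 < θ) (h1 : θ ≤ 1) (hz : IsExp g x (θ • v) z) : ‖z‖ < 1 := by
  obtain ⟨y, hy, rfl⟩ := hv
  have hyM : y ∈ M n := ball_subset_closedBall hy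
  obtain ⟨β, w, hβ, rfl, hw, rfl⟩ := hg.isExp_lg hx hyM
  have hw0 : w 0 ≠ 0 := by rw [hw]; exact hv0
  have h2 := isExp_part hβ (s := 0) (t := θ) ⟨le_rfl, zero_le_one⟩ ⟨h0.le, h1⟩
  rw [sub_zero, hw] at h2
  have h3 : z = β θ := hg.uniq' hx hz h2
  rcases h1.lt_or_eq with h4 | h4
  · rw [h3]
    exact hβ.inner_mem hg hw0 ⟨h0, h4⟩
  · rw [h3, h4]
    exact mem_ball_zero_iff.1 hy

theorem p_chord1 : P_CHORD1 := by
  intro n g hg γ u h h0 h1 hu s hs r
  have hs' : s ∈ Icc (0 : ℝ) 1 := ⟨hs.1.le, hs.2.le⟩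
  have m0 : (0 : ℝ) ∈ Icc (0 : ℝ) 1 := ⟨le_rfl, zero_le_one⟩
  have m1 : (1 : ℝ) ∈ Icc (0 : ℝ) 1 := ⟨zero_le_one, le_rfl⟩
  have hus : u s ≠ 0 := h.ne_zero hg.toIsMetric hu hs'
  have hxM : γ s ∈ M n := h.mem s hs'
  refine ⟨⟨fun hr => ⟨?_, ?_⟩, fun hr => ?_⟩, fun hr1 hr2 => ⟨?_, ?_⟩⟩
  · by_contra hcon
    rw [not_lt] at hcon
    have hrn : r < 0 := by linarith [hs.1]
    have h2 := norm_lt_of_mem_D hg (z := γ 0) hxM hr (smul_ne_zero hrn.ne hus) (θ := s / (-r))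
      (div_pos hs.1 (neg_pos.2 hrn)) ((div_le_one (neg_pos.2 hrn)).2 (by linarith)) (by
        have h3 := isExp_part h hs' m0
        have h4 : (s / (-r)) • r • u s = (0 - s) • u s := by
          rw [smul_smul, div_neg, neg_mul, div_mul_cancel₀ _ hrn.ne, zero_sub]
        rw [h4]
        exact h3)
    linarith
  · by_contra hcon
    rw [not_lt] at hcon
    have hrn : 0 < r := by linarith [hs.2]
    have h2 := norm_lt_of_mem_D hg (z := γ 1) hxM hr (smul_ne_zero hrn.ne' hus) (θ := (1 - s) / r)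
      (div_pos (by linarith [hs.2]) hrn) ((div_le_one hrn).2 hcon) (by
        have h3 := isExp_part h hs' m1
        have h4 : ((1 - s) / r) • r • u s = (1 - s) • u s := by
          rw [smul_smul]
          congr 1
          field_simp
        rw [h4]
        exact h3)
    linarith
  · have ht : s + r ∈ Ioo (0 : ℝ) 1 := ⟨by linarith [hr.1], by linarith [hr.2]⟩
    refine ⟨γ (s + r), mem_ball_zero_iff.2 (h.inner_mem hg hu ht), ?_⟩
    rw [lg_part hg h hs' ⟨ht.1.le, ht.2.le⟩]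
    congr 1
    ring
  · have ht : s + r ∈ Icc (0 : ℝ) 1 := ⟨by linarith, by linarith⟩
    have h3 := ex_part hg h hs' ht
    rwa [add_sub_cancel_left] at h3
  · have ht : s + r ∈ Icc (0 : ℝ) 1 := ⟨by linarith, by linarith⟩
    rw [lg_part hg h ht hs', sub_add_cancel_left, neg_smul]

theorem dom_eq (hg : IsSimple g) {x : E n} (hx : x ∈ M n) : dom g x = lg g x '' M n := by
  ext v
  constructor
  · rintro ⟨y, hy⟩
    exact ⟨y, hy.tgt, (hg.eq_lg hx hy).symm⟩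
  · rintro ⟨y, hy, rfl⟩
    exact hg.lg_mem hx hy

theorem isCompact_dom (hg : IsSimple g) {x : E n} (hx : x ∈ M n) : IsCompact (dom g x) := by
  rw [dom_eq hg hx]
  exact (isCompact_closedBall 0 1).image_of_continuousOn (hg.contDiffOn_lg hx).continuousOn

/-- Geodesics can be prolonged to the boundary. -/
theorem exists_max (hg : IsSimple g) {x v : E n} (hx : x ∈ M n) (hv : v ≠ 0) {a : ℝ}
    (ha : a • v ∈ dom g x) : ∃ b : ℝ, a ≤ b ∧ b • v ∈ dom g x ∧ ‖ex g x (b • v)‖ = 1 := by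
  have hc := isCompact_dom hg hx
  have hcont : Continuous fun b : ℝ => b • v := by fun_prop
  have hclosed : IsClosed {b : ℝ | a ≤ b ∧ b • v ∈ dom g x} :=
    isClosed_Ici.inter (hc.isClosed.preimage hcont)
  obtain ⟨C, hC⟩ := hc.isBounded.exists_norm_le
  have hvp : 0 < ‖v‖ := norm_pos_iff.2 hv
  have hbdd : BddAbove {b : ℝ | a ≤ b ∧ b • v ∈ dom g x} := by
    refine ⟨C / ‖v‖, fun b hb => ?_⟩
    rw [le_div_iff₀ hvp]
    have h1 := hC _ hb.2
    rw [norm_smul] at h1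
    exact (mul_le_mul_of_nonneg_right (le_abs_self b) hvp.le).trans h1
  have hne : {b : ℝ | a ≤ b ∧ b • v ∈ dom g x}.Nonempty := ⟨a, le_rfl, ha⟩
  set b := sSup {b : ℝ | a ≤ b ∧ b • v ∈ dom g x} with hb
  have hbm : b ∈ {b : ℝ | a ≤ b ∧ b • v ∈ dom g x} := hclosed.csSup_mem hne hbdd
  refine ⟨b, hbm.1, hbm.2, ?_⟩
  have hM : ex g x (b • v) ∈ M n := (hg.isExp_ex hbm.2).tgt
  refine le_antisymm (mem_closedBall_zero_iff.1 hM) ?_
  by_contra hcon
  rw [not_le] at hcon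
  have hmem : b • v ∈ lg g x '' ball 0 1 :=
    ⟨ex g x (b • v), mem_ball_zero_iff.2 hcon, hg.lg_ex hx hbm.2⟩
  have hopen : IsOpen ((fun b : ℝ => b • v) ⁻¹' (lg g x '' ball 0 1)) :=
    (hg.isOpen_lg hx).preimage hcont
  obtain ⟨ε, hε, hsub⟩ := Metric.isOpen_iff.1 hopen b hmem
  have h2 : b + ε / 2 ∈ (fun b : ℝ => b • v) ⁻¹' (lg g x '' ball 0 1) := by
    apply hsub
    rw [mem_ball, Real.dist_eq, add_sub_cancel_left, abs_of_pos (half_pos hε)]
    exact half_lt_self hε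
  have h3 : b + ε / 2 ∈ {b : ℝ | a ≤ b ∧ b • v ∈ dom g x} :=
    ⟨by linarith [hbm.1], hg.lg_image_sub hx h2⟩
  have h4 := le_csSup hbdd h3
  linarith

theorem p_chord2 : P_CHORD2 := by
  intro n g hg x hx v hv
  have hxM : x ∈ M n := ball_subset_closedBall hx
  have hx1 : ‖x‖ < 1 := mem_ball_zero_iff.1 hx
  have m0 : (0 : ℝ) ∈ Icc (0 : ℝ) 1 := ⟨le_rfl, zero_le_one⟩
  have m1 : (1 : ℝ) ∈ Icc (0 : ℝ) 1 := ⟨zero_le_one, le_rfl⟩
  -- the end point on the side of `v`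
  have hz : IsExp g x ((0 : ℝ) • v) x := by
    rw [zero_smul]
    exact (isGeod_const hxM).isExp
  obtain ⟨b, hb0, hb, hq1⟩ := exists_max hg hxM hv hz.mem
  have hbq := hg.isExp_ex hb
  set q := ex g x (b • v) with hq
  have hqM : q ∈ M n := hbq.tgt
  have hbpos : 0 < b := by
    rcases hb0.lt_or_eq with h | h
    · exact h
    · exfalso
      rw [← h] at hbq
      have h2 := hg.uniq' hxM hbq hz
      rw [h2] at hq1
      linarith
  -- the end point on the other side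
  have hqx : q ≠ x := by
    rintro h
    rw [h] at hq1
    linarith
  have hw0 : lg g q x ≠ 0 := hg.lg_ne_zero hqM hxM hqx
  have h1w : (1 : ℝ) • lg g q x ∈ dom g q := by
    rw [one_smul]
    exact hg.lg_mem hqM hxM
  obtain ⟨c, hc1, hc, hp1⟩ := exists_max hg hqM hw0 h1w
  have hcp := hg.isExp_ex hc
  have hcpos : 0 < c := by linarith
  have hc1' : 1 < c := by
    rcases hc1.lt_or_eq with h | h
    · exact h
    · exfalso
      rw [← h, one_smul, hg.ex_lg hqM hxM] at hp1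
      linarith
  obtain ⟨β, w, hβ, hβ0, hβw, hβ1⟩ := hcp
  have hci : c⁻¹ ∈ Icc (0 : ℝ) 1 := ⟨(inv_pos.2 hcpos).le, inv_le_one_of_one_le₀ hc1⟩
  have hβx : β c⁻¹ = x := by
    have h2 := isExp_part hβ m0 hci
    rw [hβ0, hβw, sub_zero, smul_smul, inv_mul_cancel₀ hcpos.ne', one_smul] at h2
    exact hg.uniq' hqM h2 (hg.isExp_lg hqM hxM)
  have hwx : b • v = (-c⁻¹) • w c⁻¹ := by
    have h2 := isExp_part hβ hci m0
    rw [hβx, hβ0, zero_sub] at h2
    exact hg.uniq hxM hbq h2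
  have hw00 : w 0 ≠ 0 := by
    rw [hβw]
    exact smul_ne_zero hcpos.ne' hw0
  refine ⟨fun t => β (1 - t), fun t => -w (1 - t), 1 - c⁻¹, c * b, hβ.reverse, ?_, ?_, ?_,
    ⟨?_, ?_⟩, mul_pos hcpos hbpos, ?_, ?_⟩
  · simp only [sub_zero]
    rw [hβ1]
    exact hp1
  · simp only [sub_self]
    rw [hβ0]
    exact hq1
  · simp only [sub_zero]
    exact neg_ne_zero.2 (hβ.ne_zero hg.toIsMetric hw00 m1)
  · have := inv_lt_one_of_one_lt₀ hc1'
    linarith
  · have := inv_pos.2 hcpos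
    linarith
  · simp only [sub_sub_cancel]
    exact hβx
  · simp only [sub_sub_cancel]
    rw [mul_smul, hwx, smul_smul, mul_neg, mul_inv_cancel₀ hcpos.ne', neg_smul, one_smul]

end Pool.Agent.W2helper20.BC
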