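import Pool.Agent.Q176.BR.Light

/-!
# Volume and energy: the definitions used in the statement
-/

set_option autoImplicit false

namespace Pool.Agent.W2helper20.EN

open Set Metric MeasureTheory
open scoped ContDiff InnerProductSpace
open Pool.Agent.Q176.SM

variable {n : ℕ}

/-- `ψ` is a smooth map of `M` to itself which fixes every boundary point. -/
structure FixesBoundary (ψ : E n → E n) : Prop where
  smooth : ContDiff ℝ ∞ ψ
  maps : MapsTo ψ (M n) (M n)
  fix : ∀ x ∈ bdM n, ψ x = x

/-- The pull-back `ψ^* g'`. -/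
noncomputable def pullback (ψ : E n → E n) (g' : E n → E n → E n → ℝ) : E n → E n → E n → ℝ :=
  fun x v w => g' (ψ x) (fderiv ℝ ψ x v) (fderiv ℝ ψ x w)

/-- `ψ` is an isometry of `(M, g)` onto `(M, g')`: a diffeomorphism of `M` with `ψ^* g' = g`. -/
def IsIsometry (g g' : E n → E n → E n → ℝ) (ψ : E n → E n) : Prop :=
  IsDiffeo ψ (M n) (M n) ∧ ∀ x ∈ M n, pullback ψ g' x = g x

/-- The Gram matrix of `g` at `x` in the standard basis of `ℝ^n`. -/
noncomputable def gramMatrix (g : E n → E n → E n → ℝ) (x : E n) : Matrix (Fin n) (Fin n) ℝ :=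
  Matrix.of fun i j => g x (EuclideanSpace.single i (1 : ℝ)) (EuclideanSpace.single j (1 : ℝ))

/-- The volume of `(M, g)`. -/
noncomputable def vol (g : E n → E n → E n → ℝ) : ℝ := ∫ x in M n, √(gramMatrix g x).det

/-- The trace of `h` with respect to `g` divided by the dimension: the mean of `h(v, v)` over the `g`-unit
vectors `v` at `x`. For `h = ψ^* g'` it is `|dψ|² / n`. -/
noncomputable def meanTrace (g h : E n → E n → E n → ℝ) (x : E n) : ℝ :=
  ((gramMatrix g x)⁻¹ * gramMatrix h x).trace / n

/-- The normalised `p`-energy `∫_M (|dψ|² / n)^(p/2) dvol_g` of the map `ψ : (M, g) → (M, g')`. For `p = 2` it is the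
Dirichlet energy, up to the factor `n / 2`. -/
noncomputable def energy (p : ℝ) (g g' : E n → E n → E n → ℝ) (ψ : E n → E n) : ℝ :=
  ∫ x in M n, meanTrace g (pullback ψ g') x ^ (p / 2) * √(gramMatrix g x).det

end Pool.Agent.W2helper20.EN
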