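import Pool.Agent.W2helper20.BC.Stm2

/-!
# The energy of boundary fixing maps: assembly from the pieces
-/

set_option autoImplicit false

namespace Pool.Agent.W2helper20.BC

open Set Metric Filter Topology MeasureTheory
open scoped ContDiff InnerProductSpace ENNReal
open Pool.Agent.Q176.BR

variable {n : ℕ} {g h g' : Fld n}

/-- The energy inequality and its equality case for a field `h` of nonnegative forms. -/
theorem semi_main (hA : P_AVG2) (hT : P_TRACE) (hC : P_CONF) (hV : P_VAR) (hK : P_CONST)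
    (hP : P_PULL) (h2 : P_CHORD2) (hn : 2 ≤ n) (hg : IsSimple g) (hh : IsSemi h) (hl : LenGe g h) :
    vo g ≤ en g h ∧ (en g h ≤ vo g → ∀ x ∈ M n, h x = g x) := by
  have hm := hg.toIsMetric
  obtain ⟨a1, a2⟩ := hA n g h hn hg hh hl
  obtain ⟨c1, c2⟩ := hC hT n g h hn hm hh a1
  refine ⟨c1, fun he => ?_⟩
  obtain ⟨c3, c4⟩ := c2 he
  obtain ⟨t1, t2⟩ := hP.2 n g h hm hh
  have hae := a2 c3
  have key : ∀ᵐ x : E n, x ∈ ball (0 : E n) 1 → ∀ᵐ v : E n, g x v v ≤ 1 → v ≠ 0 → 0 < Tr g h x →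
      ∀ w : E n, g x v v * fderiv ℝ (Tr g h) x w = g x v w * fderiv ℝ (Tr g h) x v := by
    filter_upwards [hae] with x hx1 hx
    filter_upwards [hx1 hx] with v hv1 hv2 hv3 hpos w
    obtain ⟨γ, u, s, c, b1, b2, b3, b4, hs, hc, b5, b6⟩ := h2 n g hg x hx v hv3
    have hch : Chord g γ u := ⟨b1, b2, b3, b4⟩
    have e1 := hv1 hv2 hv3 γ u s c hch hs hc b5 b6
    have e2 := hV n g h (Tr g h) γ u hg hh t1 c4 hl hch e1 s hs (by rw [b5]; exact hpos) w
    rw [b5, b6] at e2
    simp only [map_smul, smul_apply, smul_eq_mul] at e2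
    have hc2 : c * c ≠ 0 := mul_ne_zero hc.ne' hc.ne'
    refine mul_left_cancel₀ hc2 ?_
    linear_combination e2
  have e3 : en g h = vo g := le_antisymm he c1
  have e4 := hK n g (Tr g h) hn hm t1 t2 key e3
  intro x hx
  rw [c4 x hx, e4 x hx, one_smul]

theorem pull_apply (g' : Fld n) (ψ : E n → E n) (x v w : E n) :
    pull g' ψ x v w = g' (ψ x) (fderiv ℝ ψ x v) (fderiv ℝ ψ x w) := rfl

/-- The `p`-energy. -/
noncomputable def enp {n : ℕ} (p : ℝ) (g h : Fld n) : ℝ :=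
  ∫ x in ball (0 : E n) 1, (Tr g h x) ^ (p / 2) * √(rho g x)

theorem Tr_self (hn : 1 ≤ n) (hm : IsMetric g) {x : E n} (hx : h x = g x) : Tr g h x = 1 := by
  unfold Tr
  rw [hx, Matrix.nonsing_inv_mul _ (isUnit_iff_ne_zero.2 (hm.det_pos x).ne'), Matrix.trace_one,
    Fintype.card_fin]
  have : (n : ℝ) ≠ 0 := by
    have : 0 < n := hn
    positivity
  exact div_self this

theorem enp_self (hn : 1 ≤ n) (hm : IsMetric g) (hx : ∀ x ∈ M n, h x = g x) (p : ℝ) :
    enp p g h = vo g := by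
  unfold enp vo
  refine setIntegral_congr_fun measurableSet_ball (fun x hx1 => ?_)
  rw [Tr_self hn hm (hx x (ball_subset_closedBall hx1)), Real.one_rpow, one_mul]

/-- **Main theorem**. -/
theorem energy_main (hA : P_AVG2) (hT : P_TRACE) (hC : P_CONF) (hV : P_VAR) (hK : P_CONST)
    (hP : P_PULL) (h1 : P_CHORD1) (h2 : P_CHORD2) (hD : P_DIFF) (hW : P_POW) (hn : 2 ≤ n)
    (hg : IsSimple g) (hg' : IsMetric g')
    (hd : ∀ p ∈ bdM n, ∀ q ∈ bdM n, rdist g p q ≤ rdist g' p q) {ψ : E n → E n} (hψ : IsFix ψ)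
    {p : ℝ} (hp : 1 ≤ p) :
    vo g ≤ enp p g (pull g' ψ) ∧ (enp p g (pull g' ψ) ≤ vo g ↔
      Pool.Agent.Q176.SM.IsDiffeo ψ (M n) (M n) ∧ ∀ x ∈ M n, pull g' ψ x = g x) := by
  have hm := hg.toIsMetric
  obtain ⟨p1, p2⟩ := hP.1 n g g' ψ hm hg' hψ hd
  obtain ⟨s1, s2⟩ := semi_main hA hT hC hV hK hP h2 hn hg p1 p2
  have w := hW n g (pull g' ψ) p hp hm p1
  have w' : p * (en g (pull g' ψ) - vo g) ≤ enp p g (pull g' ψ) - vo g := w
  have hp0 : 0 < p := by linarith
  refine ⟨?_, fun he => ?_, fun he => ?_⟩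
  · have : 0 ≤ p * (en g (pull g' ψ) - vo g) := mul_nonneg hp0.le (by linarith)
    linarith
  · have h3 : p * (en g (pull g' ψ) - vo g) ≤ 0 := by linarith
    have h4 : en g (pull g' ψ) ≤ vo g := by
      by_contra hcon
      push Not at hcon
      have : 0 < p * (en g (pull g' ψ) - vo g) := mul_pos hp0 (by linarith)
      linarith
    have h5 := s2 h4
    refine ⟨?_, h5⟩
    refine hD h1 h2 n g g' ψ (by omega) hg hg' hψ hd (fun x hx v w => ?_)
    rw [← pull_apply, h5 x hx]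
  · exact (enp_self (by omega) hm he.2 p).le

/-- The pointwise condition. -/
theorem pointwise_main (hA : P_AVG2) (hT : P_TRACE) (hC : P_CONF) (hV : P_VAR) (hK : P_CONST)
    (hP : P_PULL) (h2 : P_CHORD2) (hn : 2 ≤ n) (hg : IsSimple g) (hg' : IsSimple g')
    (hd : ∀ p ∈ bdM n, ∀ q ∈ bdM n, rdist g p q = rdist g' p q)
    (hc : en g g' + en g' g ≤ vo g + vo g') : ∀ x ∈ M n, g' x = g x := by
  have hs : ∀ {a : Fld n}, IsMetric a → IsSemi a := fun ha => ⟨ha.smooth, ha.symm, ha.nonneg⟩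
  have hl : ∀ {a b : Fld n}, IsMetric b → (∀ p ∈ bdM n, ∀ q ∈ bdM n, rdist a p q = rdist b p q) →
      LenGe a b := fun hb hab c c1 c2 c3 c4 => (hab _ c3 _ c4).le.trans (rdist_le_len hb c1 c2)
  rcases le_or_gt (en g g') (vo g) with h3 | h3
  · exact (semi_main hA hT hC hV hK hP h2 hn hg (hs hg'.toIsMetric) (hl hg'.toIsMetric hd)).2 h3
  · have h4 : en g' g ≤ vo g' := by linarith
    intro x hx
    exact ((semi_main hA hT hC hV hK hP h2 hn hg' (hs hg.toIsMetric)
      (hl hg.toIsMetric (fun p hp q hq => (hd p hp q hq).symm))).2 h4 x hx).symm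

theorem int_ball {f : E n → ℝ} (hf : Continuous f) : IntegrableOn f (ball (0 : E n) 1) :=
  (hf.continuousOn.integrableOn_compact (isCompact_closedBall (0 : E n) 1)).mono_set
    ball_subset_closedBall

theorem rho_cont (hm : IsMetric g) : Continuous (rho g) := by
  unfold rho
  refine Continuous.matrix_det ?_
  refine continuous_matrix (fun i j => ?_)
  exact (hm.smooth.continuous.clm_apply continuous_const).clm_apply continuous_const

theorem cond_sum (hP : P_PULL) (hm : IsMetric g) (hm' : IsMetric g')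
    (hc : ∀ x ∈ M n, Cond g g' x) : en g g' + en g' g ≤ vo g + vo g' := by
  have hs : ∀ {a : Fld n}, IsMetric a → IsSemi a := fun ha => ⟨ha.smooth, ha.symm, ha.nonneg⟩
  have t1 := (hP.2 n g g' hm (hs hm')).1.continuous
  have t2 := (hP.2 n g' g hm' (hs hm)).1.continuous
  have r1 := rho_cont hm
  have r2 := rho_cont hm'
  have i1 : IntegrableOn (fun x => √(Tr g g' x) * √(rho g x)) (ball (0 : E n) 1) :=
    int_ball (t1.sqrt.mul r1.sqrt)
  have i2 : IntegrableOn (fun x => √(Tr g' g x) * √(rho g' x)) (ball (0 : E n) 1) :=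
    int_ball (t2.sqrt.mul r2.sqrt)
  have i3 : IntegrableOn (fun x => √(rho g x)) (ball (0 : E n) 1) := int_ball r1.sqrt
  have i4 : IntegrableOn (fun x => √(rho g' x)) (ball (0 : E n) 1) := int_ball r2.sqrt
  unfold en vo
  rw [← integral_add i1 i2, ← integral_add i3 i4]
  refine setIntegral_mono_on (i1.add i2) (i3.add i4) measurableSet_ball (fun x hx => ?_)
  have h1 := hc x (ball_subset_closedBall hx)
  unfold Cond at h1
  have p1 : 0 < rho g x := hm.det_pos x
  have p2 : 0 < rho g' x := hm'.det_pos x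
  have q1 : 0 < √(rho g x) := Real.sqrt_pos.2 p1
  have e1 : √((gram (g' x)).det / (gram (g x)).det) = √(rho g' x) / √(rho g x) :=
    Real.sqrt_div p2.le _
  rw [e1] at h1
  have h2 : √(rho g x) * (√(Tr g g' x) - 1 + (√(Tr g' g x) - 1) * (√(rho g' x) / √(rho g x))) ≤ 0 :=
    mul_nonpos_of_nonneg_of_nonpos q1.le h1
  have e2 : √(rho g x) * (√(Tr g g' x) - 1 + (√(Tr g' g x) - 1) * (√(rho g' x) / √(rho g x))) =
      √(Tr g g' x) * √(rho g x) + √(Tr g' g x) * √(rho g' x) - (√(rho g x) + √(rho g' x)) := by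
    field_simp
    ring
  rw [e2] at h2
  linarith

end Pool.Agent.W2helper20.BC
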