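import Pool.Agent.W2helper20.BC.Energy
import Pool.Agent.W2helper20.BC.EnDefs

/-!
# Comparison of the two versions of the definitions
-/

set_option autoImplicit false

namespace Pool.Agent.W2helper20.EN

open Set Metric MeasureTheory
open scoped ContDiff InnerProductSpace
open Pool.Agent.Q176 Pool.Agent.Q176.BR
open Pool.Agent.W2helper20.BC

variable {n : ℕ} {g g' h : E n → E n → E n → ℝ}

theorem int_M (f : E n → ℝ) : ∫ x in M n, f x = ∫ x in ball (0 : E n) 1, f x := by
  refine setIntegral_congr_set ?_
  refine (ae_eq_of_subset_of_measure_ge ball_subset_closedBall ?_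
    measurableSet_ball.nullMeasurableSet ?_).symm
  · rw [← ball_union_sphere]
    refine (measure_union_le _ _).trans ?_
    rw [Measure.addHaar_sphere_of_ne_zero _ _ one_ne_zero, add_zero]
  · exact measure_closedBall_lt_top.ne

theorem gram_clm' (hg : SM.IsMetric g) (x : E n) : gram (clm g x) = gramMatrix g x := by
  ext i j
  rw [gram_apply, clm_apply hg]
  rfl

theorem gram_pull (hg' : SM.IsMetric g') (ψ : E n → E n) (x : E n) :
    gram (pull (clm g') ψ x) = gramMatrix (pullback ψ g') x := by
  ext i j
  rw [gram_apply, pull_apply, clm_apply hg']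
  rfl

theorem vo_clm (hg : SM.IsMetric g) : vo (clm g) = vol g := by
  unfold vo vol rho
  rw [int_M]
  simp only [gram_clm' hg]

theorem enp_clm (hg : SM.IsMetric g) (hg' : SM.IsMetric g') (ψ : E n → E n) (p : ℝ) :
    enp p (clm g) (pull (clm g') ψ) = energy p g g' ψ := by
  unfold enp energy rho Tr meanTrace
  rw [int_M]
  simp only [gram_clm' hg, gram_pull hg']

theorem en_clm (hg : SM.IsMetric g) (hg' : SM.IsMetric g') :
    en (clm g) (clm g') = ∫ x in M n, √(meanTrace g g' x) * √(gramMatrix g x).det := by
  unfold en rho Tr meanTrace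
  rw [int_M]
  simp only [gram_clm' hg, gram_clm' hg']

theorem isometry_iff (hg : SM.IsMetric g) (hg' : SM.IsMetric g') (ψ : E n → E n) :
    (SM.IsDiffeo ψ (M n) (M n) ∧ ∀ x ∈ M n, pull (clm g') ψ x = clm g x) ↔ IsIsometry g g' ψ := by
  unfold IsIsometry
  refine and_congr_right (fun _ => forall₂_congr (fun x _ => ?_))
  constructor
  · intro h1
    funext v w
    rw [← clm_apply hg, ← h1, pull_apply, clm_apply hg']
    rfl
  · intro h1
    ext v w
    rw [clm_apply hg, ← h1, pull_apply, clm_apply hg']
    rfl

end Pool.Agent.W2helper20.EN
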