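import Pool.Agent.W2helper20.BC.Sym2
import Pool.Agent.W2helper20.BC.Avg3
import Pool.Agent.W2helper20.BC.Chord
import Pool.Agent.W2helper6.BC.Meas
import Pool.Agent.W2helper98.BC.InvM
import Pool.Agent.W2helper53.BC.Fin

/-!
# Boundary rigidity beyond the conformal class: assembly
-/

set_option autoImplicit false

namespace Pool.Agent.W2helper20.BC

open Set Metric Filter Topology MeasureTheory
open scoped ContDiff InnerProductSpace ENNReal
open Pool.Agent.Q176.BR

variable {n : ℕ}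

theorem pAVG : P_AVG :=
  p_AVG (Pool.Agent.W2helper98.BC.p_inv p_sym) Pool.Agent.W2helper6.BC.p_meas p_chord1 p_chord2

theorem mainF {g g' : Fld n} (hn : 2 ≤ n) (hg : IsSimple g) (hg' : IsSimple g')
    (hd : ∀ p ∈ bdM n, ∀ q ∈ bdM n, rdist g p q = rdist g' p q) (hc : ∀ x ∈ M n, Cond g g' x) :
    ∀ x ∈ M n, g' x = g x :=
  Pool.Agent.W2helper53.BC.p_FIN Pool.Agent.W2helper53.BC.p_TRACE n g g' hn hg.toIsMetric
    hg'.toIsMetric (pAVG n g g' hn hg hg'.toIsMetric (fun p hp q hq => (hd p hp q hq).le))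
    (pAVG n g' g hn hg' hg.toIsMetric (fun p hp q hq => (hd p hp q hq).ge)) hc

theorem gram_clm {g : E n → E n → E n → ℝ} (hg : Pool.Agent.Q176.SM.IsMetric g) (x : E n) :
    gram (clm g x) = Matrix.of fun i j =>
      g x (EuclideanSpace.single i (1 : ℝ)) (EuclideanSpace.single j (1 : ℝ)) := by
  ext i j
  rw [gram_apply, clm_apply hg]
  rfl

end Pool.Agent.W2helper20.BC
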