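import Pool.Agent.W2helper20.BC.Main
import Pool.Agent.W2helper20.BC.Avg4
import Pool.Agent.W2helper20.BC.EnergySM
import Pool.Agent.W2helper78.EN.Const
import Pool.Agent.W2helper71.EN.DIFF
import Pool.Agent.W2helper74.EN.Conf
import Pool.Agent.W4helper65.EN.Pull
import Pool.Agent.W2helper52.EN.Var

/-!
# The energy of boundary fixing maps: assembly
-/

set_option autoImplicit false

namespace Pool.Agent.W2helper20.EN

open Set Metric MeasureTheory
open scoped ContDiff InnerProductSpace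
open Pool.Agent.Q176 Pool.Agent.Q176.BR
open Pool.Agent.W2helper20.BC

variable {n : ℕ} {g g' : E n → E n → E n → ℝ}

theorem pAVG2 : P_AVG2 :=
  p_AVG2 (Pool.Agent.W2helper98.BC.p_inv p_sym) Pool.Agent.W2helper6.BC.p_meas p_chord1 p_chord2

/-- **Main theorem**. -/
theorem energy_theorem (hn : 2 ≤ n) (hg : SM.IsSimple g) (hg' : SM.IsMetric g')
    (hd : ∀ x ∈ bdM n, ∀ y ∈ bdM n, SM.rdist g x y ≤ SM.rdist g' x y) {p : ℝ} (hp : 1 ≤ p)
    {ψ : E n → E n} (hψ : FixesBoundary ψ) :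
    vol g ≤ energy p g g' ψ ∧ (energy p g g' ψ ≤ vol g ↔ IsIsometry g g' ψ) := by
  have hm := hg.toIsMetric
  have h1 := energy_main pAVG2 Pool.Agent.W2helper53.BC.p_TRACE Pool.Agent.W2helper74.EN.p_CONF
    Pool.Agent.W2helper52.EN.p_VAR Pool.Agent.W2helper78.EN.p_CONST Pool.Agent.W4helper65.EN.p_PULL
    p_chord1 p_chord2 Pool.Agent.W2helper71.EN.p_DIFF Pool.Agent.W4helper65.EN.p_POW hn
    (clm_simple hg) (clm_metric hg')
    (fun a ha b hb => by
      rw [clm_rdist hm, clm_rdist hg']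
      exact hd a ha b hb)
    (⟨hψ.smooth, hψ.maps, hψ.fix⟩ : IsFix ψ) hp
  rw [vo_clm hm, enp_clm hm hg', isometry_iff hm hg'] at h1
  exact h1

/-- Two maps. -/
theorem two_sided (hn : 2 ≤ n) (hg : SM.IsSimple g) (hg' : SM.IsSimple g')
    (hd : ∀ x ∈ bdM n, ∀ y ∈ bdM n, SM.rdist g x y = SM.rdist g' x y)
    (hc : ∀ x ∈ M n, Cond (clm g) (clm g') x) : ∀ x ∈ M n, g' x = g x := by
  have hm := hg.toIsMetric
  have hm' := hg'.toIsMetric
  have h1 := pointwise_main pAVG2 Pool.Agent.W2helper53.BC.p_TRACE Pool.Agent.W2helper74.EN.p_CONF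
    Pool.Agent.W2helper52.EN.p_VAR Pool.Agent.W2helper78.EN.p_CONST Pool.Agent.W4helper65.EN.p_PULL
    p_chord2 hn (clm_simple hg) (clm_simple hg')
    (fun a ha b hb => by
      rw [clm_rdist hm, clm_rdist hm']
      exact hd a ha b hb)
    (cond_sum Pool.Agent.W4helper65.EN.p_PULL (clm_metric hm) (clm_metric hm') hc)
  intro x hx
  funext v w
  rw [← clm_apply hm, ← clm_apply hm', h1 x hx]

end Pool.Agent.W2helper20.EN
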