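import Pool.Agent.Q176.BR.Bridge

/-!
# Project BC: boundary rigidity beyond the conformal class (MP_07cd05_gt)

Exact statements of the pieces. `g` is a field of forms on `ℝ^n`, `M` the closed unit ball, `lg g x` the inverse of
the exponential map at `x`, `dlg g x y` its derivative at `y`, `ex g x` the exponential map
(library `Pool.Agent.Q176.BR`: Geo, Exp, Inv, Gauss, Dist, Det).

Plan. `κ(x, y) = ρ(x) |det dlg_x(y)|`, `ρ = det gram g`, is symmetric (P_SYM), hence the reversal of geodesics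
`(x, v) ↦ (exp_x v, lg_{exp_x v} x)` preserves the measure `ρ(x) dx dv` (P_INV). Averaging over the maximal geodesics
(P_CHORD) gives P_AVG: `∫_{g(v,v) ≤ 1} |v|_g |v|_{g'} ρ dx dv ≥ ∫_{g(v,v) ≤ 1} |v|_g^2 ρ dx dv` if the boundary
distances of `g'` are not smaller than those of `g`. Then P_TRACE and P_FIN.
-/

set_option autoImplicit false

namespace Pool.Agent.W2helper20.BC

open Set Metric MeasureTheory
open scoped ContDiff InnerProductSpace ENNReal
open Pool.Agent.Q176.BR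

/-- The open part of the domain of the exponential map. -/
def D {n : ℕ} (g : Fld n) (x : E n) : Set (E n) := lg g x '' ball (0 : E n) 1

/-- The density `det g`. -/
noncomputable def rho {n : ℕ} (g : Fld n) (x : E n) : ℝ := (gram (g x)).det

/-- The domain of the exponential maps with inner end points. -/
def DD {n : ℕ} (g : Fld n) : Set (E n × E n) := {p | p.1 ∈ ball (0 : E n) 1 ∧ p.2 ∈ D g p.1}

/-- The reversal of geodesics. -/
noncomputable def rev {n : ℕ} (g : Fld n) (p : E n × E n) : E n × E n :=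
  (ex g p.1 p.2, lg g (ex g p.1 p.2) p.1)

/-- SYM. Proof. `x = y`: `dlg g x x = id` (`IsGeod.dlg_vel` at `t = 0` for all small velocities). `x ≠ y`: let `γ, u` be
the geodesic from `x` to `y`, `J t = t • ilg g x (γ t) (dlg g x y ξ)`, `K t = (1 - t) • ilg g y (γ t) (dlg g y x η)`, the
variation fields of the smooth variations `vrt g x y ξ (t, s)` and `vrt g y x η (1 - t, s)` (smooth near `[0,1] × {0}`:
`vrt_contDiffAt`), and `W = (∂_J g)(u, K) + g(J', K) - (∂_K g)(u, J) - g(K', J)`. The derivative of the equation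
`d/dt g(β)(∂_t β)(w) = 1/2 (∂_w g)(∂_t β, ∂_t β)` in the parameter of the variation gives `W' = 0` on `(0, 1)`; `W` is
continuous on `[0, 1]`, `W(0) = g_x(dlg_x(y) ξ, η)`, `W(1) = g_y(dlg_y(x) η, ξ)`. (owner: helper20) -/
def P_SYM : Prop := ∀ (n : ℕ) (g : Fld n), IsSimple g → ∀ x ∈ ball (0 : E n) 1, ∀ y ∈ ball (0 : E n) 1,
  ∀ ξ η : E n, g y (dlg g y x η) ξ = g x (dlg g x y ξ) η

/-- CHORD1. Along a geodesic `γ` from boundary to boundary: `lg g (γ s) (γ (s + r)) = r • u s` for `s, s + r ∈ [0, 1]`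
(`IsGeod.tail`, `reverse`, `lg_eq`). If `r • u s = lg g (γ s) y`, `y` inner, and `r ≥ 1 - s`, restrict the geodesic from
`γ s` to `y` to the fraction `(1 - s) / r`: by uniqueness its end is `γ 1`, which is on the sphere, a contradiction to
`IsGeod.inner_mem`; same for `r ≤ - s`. -/
def P_CHORD1 : Prop := ∀ (n : ℕ) (g : Fld n), IsSimple g → ∀ γ u : ℝ → E n, IsGeod g γ u → ‖γ 0‖ = 1 →
  ‖γ 1‖ = 1 → u 0 ≠ 0 → ∀ s ∈ Ioo (0 : ℝ) 1, ∀ r : ℝ, (r • u s ∈ D g (γ s) ↔ -s < r ∧ r < 1 - s) ∧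
    (-s < r → r < 1 - s → ex g (γ s) (r • u s) = γ (s + r) ∧ lg g (γ (s + r)) (γ s) = -(r • u (s + r)))

/-- CHORD2. Existence of the maximal geodesic. Proof. `dom g x = lg g x '' M` is compact and star-shaped (`restrict`).
Let `b` be maximal with `b • v ∈ dom g x`, `q = ex g x (b • v)`; if `q` were inner, `lg g x '' ball` would be an open
neighbourhood of `b • v` in the domain (`isOpen_lg`). So `‖q‖ = 1`. Let `c` be maximal with `c • lg g q x ∈ dom g q`
(`c ≥ 1`), `p = ex g q (c • lg g q x)`; again `‖p‖ = 1` since `lg g q '' ball` is open. Take the reverse of the geodesic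
from `q` to `p`; `x` is its point with parameter `1 - 1 / c` (`c > 1` since `x` is inner). -/
def P_CHORD2 : Prop := ∀ (n : ℕ) (g : Fld n), IsSimple g → ∀ x ∈ ball (0 : E n) 1, ∀ v : E n, v ≠ 0 →
  ∃ (γ u : ℝ → E n) (s c : ℝ), IsGeod g γ u ∧ ‖γ 0‖ = 1 ∧ ‖γ 1‖ = 1 ∧ u 0 ≠ 0 ∧ s ∈ Ioo (0 : ℝ) 1 ∧ 0 < c ∧
    γ s = x ∧ u s = c • v

/-- MEAS. `(x, y) ↦ lg g x y` is separately continuous on `M × M` (`contDiffOn_lg`; `lg g x y = -tv g y x`,
`lg_symm`, `continuousOn_ilg`), hence (after composition with the retraction `z ↦ (max 1 ‖z‖)⁻¹ • z` onto `M`) jointly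
measurable (`measurable_uncurry_of_continuous_of_measurable`). `(x, y) ↦ (x, lg g x y)` is injective and measurable on
`ball × ball`, so its image `DD g` is measurable and its inverse is measurable (Lusin-Souslin:
`MeasurableSet.image_of_measurable_injOn`, `Measurable.measurableEmbedding`). -/
def P_MEAS : Prop := ∀ (n : ℕ) (g : Fld n), IsSimple g → MeasurableSet (DD g) ∧
  ∃ R : E n × E n → E n × E n, Measurable R ∧ EqOn R (rev g) (DD g)

/-- INV (assuming P_SYM). For `x` inner `∫_{D g x} F(x, v) dv = ∫_ball F(x, lg_x y) |det dlg_x(y)| dy`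
(`lintegral_image_eq_lintegral_abs_det_fderiv_mul`). By P_SYM `ρ(x) |det dlg_x(y)|` is symmetric in inner points `x, y`
(determinants of the Gram matrices), so Tonelli (`lintegral_lintegral_swap`) and renaming give the claim. Joint
measurability of `ρ(x) |det dlg_x(y)|`: for `x` inner it is continuous in `y ∈ M` (`continuousOn_dlg`), and for `y` inner
it is, by symmetry, continuous in `x` inner. -/
def P_INV : Prop := ∀ (n : ℕ) (g : Fld n), IsSimple g → ∀ F : E n × E n → ℝ≥0∞, Measurable F →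
  ∫⁻ x in ball (0 : E n) 1, ∫⁻ v in D g x, F (x, v) * ENNReal.ofReal (rho g x) =
    ∫⁻ x in ball (0 : E n) 1, ∫⁻ v in D g x, F (rev g (x, v)) * ENNReal.ofReal (rho g x)

/-- AVG (owner: helper20, from INV, MEAS, CHORD1, CHORD2). -/
def P_AVG : Prop := ∀ (n : ℕ) (g g' : Fld n), 2 ≤ n → IsSimple g → IsMetric g' →
  (∀ p ∈ bdM n, ∀ q ∈ bdM n, rdist g p q ≤ rdist g' p q) →
  ∫⁻ x in ball (0 : E n) 1, ∫⁻ v in {v | g x v v ≤ 1}, ENNReal.ofReal (g x v v) * ENNReal.ofReal (rho g x) ≤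
    ∫⁻ x in ball (0 : E n) 1, ∫⁻ v in {v | g x v v ≤ 1},
      ENNReal.ofReal (√(g x v v) * √(g' x v v)) * ENNReal.ofReal (rho g x)

/-- TRACE. Linear algebra and integration over ellipsoids (Mathlib and `BR.Det` only). Let `T` be a linear isomorphism
with `a (T v) (T w) = ⟪v, w⟫` (`T = (gram a)^(-1/2)` or an orthonormal basis of `a`), substitute `v = T u`
(`integral_image_eq_integral_abs_det_fderiv_smul` or `Measure.setIntegral_comp_...`), and
`∫_{‖u‖ ≤ 1} c(u, u) du = C * ∑ i, c(e_i, e_i)` with `C = ∫_{‖u‖ ≤ 1} (u i)^2 du` (reflections and permutations of the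
coordinates). `det T ^ 2 * det gram a = 1`, `∑ b (T e_i) (T e_i) = tr ((gram a)⁻¹ * gram b)`. -/
def P_TRACE : Prop := ∀ n : ℕ, 1 ≤ n → ∃ C : ℝ, 0 < C ∧ ∀ a b : E n →L[ℝ] E n →L[ℝ] ℝ,
  (∀ v w, a v w = a w v) → (∀ v, v ≠ 0 → 0 < a v v) → (∀ v w, b v w = b w v) →
    volume {v : E n | a v v ≤ 1} < ⊤ ∧ IntegrableOn (fun v => b v v) {v : E n | a v v ≤ 1} ∧
    ∫ v in {v : E n | a v v ≤ 1}, b v v = C / √(gram a).det * ((gram a)⁻¹ * gram b).trace

/-- The pointwise condition: `√(tr_g g' / n) - 1 + (√(tr_{g'} g / n) - 1) √(det g' / det g) ≤ 0`. -/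
def Cond {n : ℕ} (g g' : Fld n) (x : E n) : Prop :=
  √(((gram (g x))⁻¹ * gram (g' x)).trace / n) - 1 +
    (√(((gram (g' x))⁻¹ * gram (g x)).trace / n) - 1) * √((gram (g' x)).det / (gram (g x)).det) ≤ 0

/-- FIN: the two integral inequalities and the pointwise condition imply `g' = g`. Proof. `θ = √(tr_g g' / n) > 0`,
`θ'` with `g`, `g'` exchanged, `C` from TRACE. `√g √g' = (g' + θ² g - (√g' - θ √g)²) / (2θ)` and TRACE give
`ρ ∫_{g ≤ 1} √g √g' dv = C n √ρ θ - e`, `e = ρ/(2θ) ∫_{g ≤ 1} (√g' - θ √g)² dv ≥ 0`, and `ρ ∫_{g ≤ 1} g dv = C n √ρ`.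
So `∫_ball (C n √ρ (θ - 1) - e) dx ≥ 0` and the same with `g`, `g'` exchanged; the sum and `Cond` give `e = 0` for almost
all `x` and equality in `Cond` for almost all `x`. `e = 0` gives `√g' = θ √g` almost everywhere on `g(v, v) ≤ 1`, hence
`g'_x = θ² g_x`, so `θ' = 1/θ`, `det g' = θ^(2n) det g`, and equality in `Cond` gives `(θ - 1)(1 - θ^(n-1)) = 0`, `θ = 1`.
So `g' x = g x` for almost all `x` in the ball, and by continuity for all `x` in `M`. -/
def P_FIN : Prop := P_TRACE → ∀ (n : ℕ) (g g' : Fld n), 2 ≤ n → IsMetric g → IsMetric g' →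
  (∫⁻ x in ball (0 : E n) 1, ∫⁻ v in {v | g x v v ≤ 1}, ENNReal.ofReal (g x v v) * ENNReal.ofReal (rho g x) ≤
    ∫⁻ x in ball (0 : E n) 1, ∫⁻ v in {v | g x v v ≤ 1},
      ENNReal.ofReal (√(g x v v) * √(g' x v v)) * ENNReal.ofReal (rho g x)) →
  (∫⁻ x in ball (0 : E n) 1, ∫⁻ v in {v | g' x v v ≤ 1}, ENNReal.ofReal (g' x v v) * ENNReal.ofReal (rho g' x) ≤
    ∫⁻ x in ball (0 : E n) 1, ∫⁻ v in {v | g' x v v ≤ 1},
      ENNReal.ofReal (√(g' x v v) * √(g x v v)) * ENNReal.ofReal (rho g' x)) →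
  (∀ x ∈ M n, Cond g g' x) → ∀ x ∈ M n, g' x = g x

end Pool.Agent.W2helper20.BC
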