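import Pool.Agent.W2helper20.BC.Avg1

/-!
# Project EN: lower bound for the energy of boundary fixing maps (MP_07cd05_gt)

`g` simple, `g'` a metric with `d_g ≤ d_{g'}` on pairs of boundary points, `ψ : M → M` smooth, the identity on `∂M`,
`h = ψ^* g'` (nonnegative, maybe degenerate). Then `∫_M √(tr_g h / n) dvol_g ≥ vol_g(M)`, with equality only if `h = g`
on `M`, and then `ψ` is a diffeomorphism of `M`.

Plan: AVG2 (averaging over the maximal geodesics, with the equality case), CONF (equality forces `h = Θ g`,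
`Θ = tr_g h / n`), VAR (first variation along a maximal geodesic with equality), CONST (`Θ = 1`), PULL, DIFF, POW.
-/

set_option autoImplicit false

namespace Pool.Agent.W2helper20.BC

open Set Metric MeasureTheory
open scoped ContDiff InnerProductSpace ENNReal
open Pool.Agent.Q176.BR

/-- A smooth field of nonnegative symmetric forms. -/
structure IsSemi {n : ℕ} (h : Fld n) : Prop where
  smooth : ContDiff ℝ ∞ h
  symm : ∀ x v w, h x v w = h x w v
  nonneg : ∀ x v, 0 ≤ h x v v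

/-- The `h`-length of a curve in `M` between boundary points is at least the `g`-distance of its end points. -/
def LenGe {n : ℕ} (g h : Fld n) : Prop := ∀ c : ℝ → E n, ContDiffOn ℝ 1 c (Icc 0 1) →
  (∀ t ∈ Icc (0 : ℝ) 1, c t ∈ M n) → c 0 ∈ bdM n → c 1 ∈ bdM n → rdist g (c 0) (c 1) ≤ len h c

/-- `∫_ball ∫_{g(v,v) ≤ 1} g(v,v) ρ dv dx`. -/
noncomputable def A2 {n : ℕ} (g : Fld n) : ℝ≥0∞ := ∫⁻ x in ball (0 : E n) 1, ∫⁻ v in {v | g x v v ≤ 1},
  ENNReal.ofReal (g x v v) * ENNReal.ofReal (rho g x)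

/-- `∫_ball ∫_{g(v,v) ≤ 1} √g(v,v) √h(v,v) ρ dv dx`. -/
noncomputable def A1 {n : ℕ} (g h : Fld n) : ℝ≥0∞ := ∫⁻ x in ball (0 : E n) 1, ∫⁻ v in {v | g x v v ≤ 1},
  ENNReal.ofReal (√(g x v v) * √(h x v v)) * ENNReal.ofReal (rho g x)

/-- `tr_g h / n`. -/
noncomputable def Tr {n : ℕ} (g h : Fld n) (x : E n) : ℝ := ((gram (g x))⁻¹ * gram (h x)).trace / n

/-- The volume of `(M, g)`. -/
noncomputable def vo {n : ℕ} (g : Fld n) : ℝ := ∫ x in ball (0 : E n) 1, √(rho g x)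

/-- The energy `∫_M √(tr_g h / n) dvol_g`. -/
noncomputable def en {n : ℕ} (g h : Fld n) : ℝ := ∫ x in ball (0 : E n) 1, √(Tr g h x) * √(rho g x)

/-- AVG2 (owner: helper20): the averaged inequality and its equality case. -/
def P_AVG2 : Prop := ∀ (n : ℕ) (g h : Fld n), 2 ≤ n → IsSimple g → IsSemi h → LenGe g h →
  A2 g ≤ A1 g h ∧ (A1 g h ≤ A2 g → ∀ᵐ x : E n, x ∈ ball (0 : E n) 1 → ∀ᵐ v : E n, g x v v ≤ 1 → v ≠ 0 →
    ∀ (γ u : ℝ → E n) (s c : ℝ), Chord g γ u → s ∈ Ioo (0 : ℝ) 1 → 0 < c → γ s = x → u s = c • v →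
      ∫ t in (0 : ℝ)..1, √(h (γ t) (u t) (u t)) = √(g (γ 0) (u 0) (u 0)))

/-- CONF. Like `P_FIN` (helper53's `Pool.Agent.W2helper53.BC.Fin`, lemma `pointwise`), but `h` may be degenerate.
Proof. `C` from TRACE, `θ = √(Tr g h x)`. If `θ > 0`: `√g √h = (h + θ² g - (√h - θ √g)²) / (2θ)` and TRACE give
`ρ ∫_{g ≤ 1} √g √h dv = C n √ρ θ - e(x)`, `e(x) = ρ/(2θ) ∫_{g ≤ 1} (√h - θ √g)² dv ≥ 0`. If `θ = 0`: `tr_g h = 0` and
`h ≥ 0`, so `∫_{g ≤ 1} h dv = 0` by TRACE, `h x = 0` (continuity in `v`), same formula with `e(x) = 0`. And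
`ρ ∫_{g ≤ 1} g dv = C n √ρ`. So `A2 = C n vo`, `A1 = C n en - ∫ e`, `A2 ≤ A1` gives `vo ≤ en`; if `en ≤ vo`, then
`A1 ≤ A2` and `∫ e = 0`, so `e(x) = 0` for almost all `x`, hence `√h = θ √g` for almost all `v` with `g(v,v) ≤ 1`, hence
(continuity, homogeneity, polarisation) `h x = θ² g x`, for almost all `x`, hence for all `x ∈ M` by continuity of `h`,
`g`, `Tr g h` (`gram` inverse: `det ≠ 0`). -/
def P_CONF : Prop := P_TRACE → ∀ (n : ℕ) (g h : Fld n), 2 ≤ n → IsMetric g → IsSemi h → A2 g ≤ A1 g h →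
  vo g ≤ en g h ∧ (en g h ≤ vo g → A1 g h ≤ A2 g ∧ ∀ x ∈ M n, h x = Tr g h x • g x)

/-- VAR, the first variation along one maximal geodesic. Proof. `κ² = g(γ t)(u t)(u t) > 0` is constant
(`IsGeod.speed`), and `κ = rdist g (γ 0) (γ 1)` (`IsSimple.rdist_eq`, `IsGeod.lg_eq`; see `Chord.compare` in Avg1).
`q t = κ² dΘ(w) - g(γ t)(u t)(w) dΘ(u t)` (at `γ t`) is continuous on `[0,1]`. Suppose `q s ≠ 0`. Choose `δ > 0` with
`J = [s - δ, s + δ] ⊂ (0,1)`, `Θ(γ t) > 0` and `q t` of constant sign on `J`, `χ ≥ 0` a smooth bump function with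
`χ s > 0` which vanishes outside `J` (and at its end points), `c_ε t = γ t + ε χ(t) w`. For small `|ε|`, `c_ε` is a
`C¹` curve in `M` (`γ '' J` is a compact subset of the open ball, `IsGeod.inner_mem`), so `len h c_ε ≥ κ = len h c_0` by
`LenGe` and the hypothesis. Outside `J` nothing changes, and `√F_ε ≤ (F_ε / √F_0 + √F_0) / 2` on `J`,
`F_ε t = Θ(c_ε) g(c_ε)(c_ε')(c_ε')`, so `Φ(ε) = ∫_J F_ε / √F_0 dt` has a local minimum at `0`, `Φ'(0) = 0`
(`intervalIntegral.hasDerivAt_integral_of_dominated_loc_of_deriv_le`, or `hasDerivAt` of a `C¹` parameter integral).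
With `p t = g(γ t)(u t)(w)`, `p' = 1/2 (∂_w g)(u, u)` (geodesic equation) the integrand of `Φ'(0)` is
`[χ dΘ(w) κ² + 2 Θ (χ p' + χ' p)] / (√Θ κ) = χ q / (√Θ κ) + 2 d/dt [√Θ χ p / κ]`, so `∫_J χ q / (√Θ κ) dt = 0`, a
contradiction. -/
def P_VAR : Prop := ∀ (n : ℕ) (g h : Fld n) (Θ : E n → ℝ) (γ u : ℝ → E n), IsSimple g → IsSemi h →
  ContDiff ℝ ∞ Θ → (∀ x ∈ M n, h x = Θ x • g x) → LenGe g h → Chord g γ u →
  ∫ t in (0 : ℝ)..1, √(h (γ t) (u t) (u t)) = √(g (γ 0) (u 0) (u 0)) →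
  ∀ s ∈ Ioo (0 : ℝ) 1, 0 < Θ (γ s) → ∀ w : E n,
    g (γ s) (u s) (u s) * fderiv ℝ Θ (γ s) w = g (γ s) (u s) w * fderiv ℝ Θ (γ s) (u s)

/-- CONST. Proof. For almost all `x` in the ball with `Θ x > 0` the identity holds for almost all `v` in the ellipsoid,
hence for all `v` (both sides are continuous in `v` and homogeneous of degree two). For given `w` choose `v ≠ 0` with
`g x v w = 0` (`n ≥ 2`): `dΘ(w) = 0`. So `Θ x • fderiv Θ x = 0` for almost all, hence for all `x` in the ball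
(continuity; `Measure.eqOn_open_of_ae_eq` or similar), `Θ²` has derivative zero on the ball, is constant there
(`IsOpen.is_const_of_fderiv_eq_zero` / convexity), `Θ = k ≥ 0` on `M`, and `√k ∫ √ρ = ∫ √ρ > 0` gives `k = 1`. -/
def P_CONST : Prop := ∀ (n : ℕ) (g : Fld n) (Θ : E n → ℝ), 2 ≤ n → IsMetric g → ContDiff ℝ ∞ Θ →
  (∀ x, 0 ≤ Θ x) →
  (∀ᵐ x : E n, x ∈ ball (0 : E n) 1 → ∀ᵐ v : E n, g x v v ≤ 1 → v ≠ 0 → 0 < Θ x → ∀ w : E n,
    g x v v * fderiv ℝ Θ x w = g x v w * fderiv ℝ Θ x v) →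
  ∫ x in ball (0 : E n) 1, √(Θ x) * √(rho g x) = ∫ x in ball (0 : E n) 1, √(rho g x) →
  ∀ x ∈ M n, Θ x = 1

/-- A smooth map of `M` to itself which fixes the boundary points. -/
structure IsFix {n : ℕ} (ψ : E n → E n) : Prop where
  smooth : ContDiff ℝ ∞ ψ
  maps : MapsTo ψ (M n) (M n)
  fix : ∀ x ∈ bdM n, ψ x = x

/-- The pull-back. -/
noncomputable def pull {n : ℕ} (g' : Fld n) (ψ : E n → E n) : Fld n := fun x =>
  (g' (ψ x)).bilinearComp (fderiv ℝ ψ x) (fderiv ℝ ψ x)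

/-- PULL. `pull g' ψ` is smooth, symmetric, nonnegative; `len (pull g' ψ) c = len g' (ψ ∘ c)` (chain rule), and
`rdist g' ≤ len g'` (`rdist_le_len` in Avg1). Also `Tr g h` is smooth and nonnegative (`h ≥ 0`, `g > 0`: with
`gram g = B Bᵀ`... or `Tr = ∑ h(T e_i, T e_i) / n` as in helper53's Trace, or positivity of the trace of
`G^(-1/2) H G^(-1/2)`). -/
def P_PULL : Prop := (∀ (n : ℕ) (g g' : Fld n) (ψ : E n → E n), IsMetric g → IsMetric g' → IsFix ψ →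
  (∀ p ∈ bdM n, ∀ q ∈ bdM n, rdist g p q ≤ rdist g' p q) → IsSemi (pull g' ψ) ∧ LenGe g (pull g' ψ)) ∧
  (∀ (n : ℕ) (g h : Fld n), IsMetric g → IsSemi h → ContDiff ℝ ∞ (Tr g h) ∧ ∀ x, 0 ≤ Tr g h x)

/-- DIFF. Proof. The derivative of `ψ` is invertible at every point of `M` (`g` is positive definite). So `ψ` is a local
diffeomorphism of `ℝ^n` at the points of `M` (`ContDiffAt.toOpenPartialHomeomorph`, `ContDiffAt.to_localInverse`), and
`ψ` maps the open ball to the interior of `M`, the open ball. Injectivity on the ball: let `ψ x = ψ y`, `x ≠ y` inner,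
`v = lg g x y ≠ 0`, `γ, u, s, c` the maximal geodesic of P_CHORD2 with `γ s = x`, `u s = c • v`, so (P_CHORD1)
`y = γ (s + 1 / c)`, `s₂ = s + 1/c ∈ (s, 1)`. With `φ t = t² (3 - 2 t)`, the curve `t ↦ ψ (γ (s φ(2 t)))` for
`t ≤ 1/2`, `t ↦ ψ (γ (s₂ + (1 - s₂) φ(2 t - 1)))` for `t ≥ 1/2` is `C¹` on `[0,1]`, in `M`, from `γ 0` to `γ 1` and of
`g'`-length `κ (s + 1 - s₂) < κ = rdist g (γ 0) (γ 1) ≤ rdist g' (γ 0) (γ 1)` (`IsGeod.speed`), a contradiction
(`rdist_le_len`). With `ψ = id` on the sphere `ψ` is injective on `M`. Surjectivity: `ψ '' ball` is open, and closed in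
the ball (`ψ '' M` is compact, `ψ` is the identity on the sphere), the ball is connected. Smoothness of the inverse `G`
on `M`: `G` is continuous on the compact `M`, so near `ψ x` it coincides on `M` with the local inverse at `x`. -/
def P_DIFF : Prop := P_CHORD1 → P_CHORD2 → ∀ (n : ℕ) (g g' : Fld n) (ψ : E n → E n), 1 ≤ n → IsSimple g →
  IsMetric g' → IsFix ψ → (∀ p ∈ bdM n, ∀ q ∈ bdM n, rdist g p q ≤ rdist g' p q) →
  (∀ x ∈ M n, ∀ v w, g' (ψ x) (fderiv ℝ ψ x v) (fderiv ℝ ψ x w) = g x v w) →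
  Pool.Agent.Q176.SM.IsDiffeo ψ (M n) (M n)

/-- POW. Proof. `θ^p ≥ 1 + p (θ - 1)` for `θ = √Tr ≥ 0` (`one_add_mul_self_le_rpow_one_add`); integrate against
`√ρ` over the ball (all functions are continuous, the closed ball is compact). -/
def P_POW : Prop := ∀ (n : ℕ) (g h : Fld n) (p : ℝ), 1 ≤ p → IsMetric g → IsSemi h →
  p * (en g h - vo g) ≤ (∫ x in ball (0 : E n) 1, (Tr g h x) ^ (p / 2) * √(rho g x)) - vo g

end Pool.Agent.W2helper20.BC
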