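import Pool.Agent.W2helper20.BC.Stm

/-!
# The Wronskian of two variations of a geodesic
-/

set_option autoImplicit false

namespace Pool.Agent.W2helper20.BC

open Set Metric Filter Topology MeasureTheory
open scoped ContDiff InnerProductSpace
open Pool.Agent.Q176.BR

variable {n : ℕ} {g : Fld n}

/-- The derivative in the time. -/
noncomputable def dt (β : ℝ × ℝ → E n) (p : ℝ × ℝ) : E n := fderiv ℝ β p (1, 0)

/-- The derivative in the parameter. -/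
noncomputable def ds (β : ℝ × ℝ → E n) (p : ℝ × ℝ) : E n := fderiv ℝ β p (0, 1)

/-- The momentum. -/
noncomputable def mom (g : Fld n) (β : ℝ × ℝ → E n) (p : ℝ × ℝ) : E n →L[ℝ] ℝ := g (β p) (dt β p)

/-- The force. -/
noncomputable def frc (g : Fld n) (β : ℝ × ℝ → E n) (p : ℝ × ℝ) : E n →L[ℝ] ℝ :=
  (1 / 2 : ℝ) • (((fderiv ℝ g (β p)).flip (dt β p)).flip (dt β p))

theorem frc_apply (β : ℝ × ℝ → E n) (p : ℝ × ℝ) (w : E n) :
    frc g β p w = 1 / 2 * fderiv ℝ g (β p) w (dt β p) (dt β p) := by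
  simp [frc]

theorem contDiffAt_dt {β : ℝ × ℝ → E n} {p : ℝ × ℝ} (h : ContDiffAt ℝ ∞ β p) :
    ContDiffAt ℝ ∞ (dt β) p :=
  (h.fderiv_right (m := ∞) (by simp)).clm_apply contDiffAt_const

theorem contDiffAt_mom (hm : IsMetric g) {β : ℝ × ℝ → E n} {p : ℝ × ℝ} (h : ContDiffAt ℝ ∞ β p) :
    ContDiffAt ℝ ∞ (mom g β) p :=
  (hm.smooth.contDiffAt.comp p h).clm_apply (contDiffAt_dt h)

theorem mom_hasFDerivAt (hm : IsMetric g) {β : ℝ × ℝ → E n} {p : ℝ × ℝ} (h : ContDiffAt ℝ ∞ β p)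
    (e : ℝ × ℝ) : fderiv ℝ (mom g β) p e = fderiv ℝ g (β p) (fderiv ℝ β p e) (dt β p) +
      g (β p) (fderiv ℝ (dt β) p e) := by
  have h0 : HasFDerivAt β (fderiv ℝ β p) p := (h.differentiableAt (by simp)).hasFDerivAt
  have h1 : HasFDerivAt (fun q => g (β q)) ((fderiv ℝ g (β p)).comp (fderiv ℝ β p)) p :=
    HasFDerivAt.comp (g := g) p (hm.hasFDerivAt (β p)) h0
  have h2 : HasFDerivAt (dt β) (fderiv ℝ (dt β) p) p :=
    ((contDiffAt_dt h).differentiableAt (by simp)).hasFDerivAt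
  have h3 := h1.clm_apply h2
  have h4 : fderiv ℝ (mom g β) p = _ := h3.fderiv
  rw [h4]
  ext w
  simp [add_comm]

/-- Families of geodesics near the time `t0`. -/
def Geo (g : Fld n) (β : ℝ × ℝ → E n) (t0 : ℝ) : Prop :=
  ContDiffAt ℝ ∞ β (t0, 0) ∧ ∀ᶠ p in 𝓝 (t0, (0 : ℝ)),
    ∃ c, HasDerivAt (fun t => dt β (t, p.2)) c p.1 ∧ IsAcc g (β p) (dt β p) c

theorem Geo.dmom (hm : IsMetric g) {β : ℝ × ℝ → E n} {t0 : ℝ} (h : Geo g β t0) :
    ∀ᶠ p in 𝓝 (t0, (0 : ℝ)), fderiv ℝ (mom g β) p (1, 0) = frc g β p := by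
  have hs : ∀ᶠ p in 𝓝 (t0, (0 : ℝ)), ContDiffAt ℝ 2 β p :=
    (h.1.of_le (by exact WithTop.coe_le_coe.2 le_top)).eventually (by simp)
  filter_upwards [hs, h.2] with p hp hc
  obtain ⟨c, h1, h2⟩ := hc
  have h0 : HasFDerivAt β (fderiv ℝ β p) p := (hp.differentiableAt (by simp)).hasFDerivAt
  have h3 : HasFDerivAt (fun q => g (β q)) ((fderiv ℝ g (β p)).comp (fderiv ℝ β p)) p :=
    HasFDerivAt.comp (g := g) p (hm.hasFDerivAt (β p)) h0
  have hdt : ContDiffAt ℝ 1 (dt β) p :=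
    (hp.fderiv_right (m := 1) (by norm_num)).clm_apply contDiffAt_const
  have h4 : HasFDerivAt (dt β) (fderiv ℝ (dt β) p) p := (hdt.differentiableAt (by simp)).hasFDerivAt
  have h5 : fderiv ℝ (dt β) p (1, 0) = c := by
    have h6 : HasDerivAt (fun t : ℝ => dt β (t, p.2)) (fderiv ℝ (dt β) p (1, 0)) p.1 :=
      HasFDerivAt.comp_hasDerivAt (f := fun t : ℝ => (t, p.2)) p.1 h4 (curve_t p.1 p.2)
    exact h6.unique h1
  have h6 : fderiv ℝ (mom g β) p = _ := (h3.clm_apply h4).fderiv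
  ext w
  rw [h6, frc_apply]
  simp only [add_apply, ContinuousLinearMap.comp_apply, ContinuousLinearMap.flip_apply]
  rw [h5, h2 w]
  change _ + fderiv ℝ g (β p) (dt β p) (dt β p) w = _
  ring

/-- The second derivative of the metric in the directions `z`, `w`. -/
noncomputable def ddg (g : Fld n) (x z w : E n) : E n →L[ℝ] E n →L[ℝ] ℝ :=
  fderiv ℝ (fun x => fderiv ℝ g x w) x z

theorem ddg_hasFDerivAt (hm : IsMetric g) (x w : E n) :
    HasFDerivAt (fun x => fderiv ℝ g x w) (fderiv ℝ (fun x => fderiv ℝ g x w) x) x := by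
  have h1 : ContDiff ℝ 1 (fun p : E n × E n => fderiv ℝ g p.1 p.2) :=
    hm.smooth.contDiff_fderiv_apply (by
      rw [one_add_one_eq_two]
      exact WithTop.coe_le_coe.2 le_top)
  have h2 : ContDiff ℝ 1 (fun x : E n => fderiv ℝ g x w) :=
    h1.comp (contDiff_id.prodMk contDiff_const)
  exact ((h2.differentiable (by simp)) x).hasFDerivAt

theorem ddg_symm (hm : IsMetric g) (x z w a : E n) : ddg g x z w a a = ddg g x w z a a := by
  have hf : ContDiff ℝ ∞ (fun x => g x a a) :=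
    (hm.smooth.clm_apply contDiff_const).clm_apply contDiff_const
  have h0 : ∀ x w, fderiv ℝ (fun x => g x a a) x w = fderiv ℝ g x w a a := by
    intro x w
    have h1 : HasFDerivAt (fun y => g y a a) (((fderiv ℝ g x).flip a).flip a) x := by
      have h := ((hm.hasFDerivAt x).clm_apply (hasFDerivAt_const a x)).clm_apply
        (hasFDerivAt_const a x)
      refine h.congr_fderiv ?_
      ext z
      simp
    rw [h1.fderiv]
    simp
  have key : ∀ z w, ddg g x z w a a = fderiv ℝ (fderiv ℝ (fun x => g x a a)) x z w := by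
    intro z w
    have h2 : HasFDerivAt (fderiv ℝ (fun x => g x a a))
        (fderiv ℝ (fderiv ℝ (fun x => g x a a)) x) x := by
      have h6 : ContDiff ℝ 1 (fderiv ℝ (fun x => g x a a)) := hf.fderiv_right (by
        rw [one_add_one_eq_two]
        exact WithTop.coe_le_coe.2 le_top)
      exact ((h6.differentiable (by simp)) _).hasFDerivAt
    have h3 := h2.clm_apply (hasFDerivAt_const w x)
    have h4 := ((ddg_hasFDerivAt hm x w).clm_apply (hasFDerivAt_const a x)).clm_apply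
      (hasFDerivAt_const a x)
    have e : (fun x => fderiv ℝ (fun x => g x a a) x w) = fun x => fderiv ℝ g x w a a := by
      funext y
      exact h0 y w
    rw [e] at h3
    have h5 := congrArg (fun L : E n →L[ℝ] ℝ => L z) (h4.unique h3)
    simpa [ddg] using h5
  rw [key, key]
  have hs : IsSymmSndFDerivAt ℝ (fun x => g x a a) x :=
    hf.contDiffAt.isSymmSndFDerivAt (by
      rw [minSmoothness_of_isRCLikeNormedField]
      exact WithTop.coe_le_coe.2 le_top)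
  exact hs z w

/-- The derivative in the time of the derivative of the momentum in the parameter. -/
theorem Geo.ddmom (hm : IsMetric g) {β : ℝ × ℝ → E n} {t0 : ℝ} (h : Geo g β t0) :
    ∃ L : E n →L[ℝ] ℝ, HasDerivAt (fun t => fderiv ℝ (mom g β) (t, 0) (0, 1)) L t0 ∧
      ∀ w, L w = 1 / 2 * ddg g (β (t0, 0)) (ds β (t0, 0)) w (dt β (t0, 0)) (dt β (t0, 0)) +
        fderiv ℝ g (β (t0, 0)) w (fderiv ℝ (dt β) (t0, 0) (0, 1)) (dt β (t0, 0)) := by
  have hmom := contDiffAt_mom hm h.1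
  have hD2 : HasFDerivAt (fderiv ℝ (mom g β)) (fderiv ℝ (fderiv ℝ (mom g β)) (t0, 0)) (t0, 0) := by
    have h2 : ContDiffAt ℝ 1 (fderiv ℝ (mom g β)) (t0, 0) := hmom.fderiv_right (by
      rw [one_add_one_eq_two]
      exact WithTop.coe_le_coe.2 le_top)
    exact (h2.differentiableAt (by simp)).hasFDerivAt
  have hsym : fderiv ℝ (fderiv ℝ (mom g β)) (t0, 0) (0, 1) (1, 0) =
      fderiv ℝ (fderiv ℝ (mom g β)) (t0, 0) (1, 0) (0, 1) :=
    (hmom.isSymmSndFDerivAt (by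
      rw [minSmoothness_of_isRCLikeNormedField]
      exact WithTop.coe_le_coe.2 le_top)) (0, 1) (1, 0)
  have d1 : HasDerivAt (fun s : ℝ => fderiv ℝ (mom g β) (t0, s) (1, 0))
      (fderiv ℝ (fderiv ℝ (mom g β)) (t0, 0) (0, 1) (1, 0)) 0 := by
    have h4 : HasDerivAt (fun s : ℝ => fderiv ℝ (mom g β) (t0, s))
        (fderiv ℝ (fderiv ℝ (mom g β)) (t0, 0) (0, 1)) 0 :=
      HasFDerivAt.comp_hasDerivAt (l := fderiv ℝ (mom g β)) (f := fun s : ℝ => (t0, s)) (0 : ℝ) hD2 (curve_s t0 0)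
    have h3 := h4.clm_apply (hasDerivAt_const (0 : ℝ) ((1 : ℝ), (0 : ℝ)))
    rw [map_zero, add_zero] at h3
    exact h3
  have d2 : HasDerivAt (fun t : ℝ => fderiv ℝ (mom g β) (t, 0) (0, 1))
      (fderiv ℝ (fderiv ℝ (mom g β)) (t0, 0) (1, 0) (0, 1)) t0 := by
    have h4 : HasDerivAt (fun t : ℝ => fderiv ℝ (mom g β) (t, 0))
        (fderiv ℝ (fderiv ℝ (mom g β)) (t0, 0) (1, 0)) t0 :=
      HasFDerivAt.comp_hasDerivAt (l := fderiv ℝ (mom g β)) (f := fun t : ℝ => (t, (0 : ℝ))) t0 hD2 (curve_t t0 0)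
    have h3 := h4.clm_apply (hasDerivAt_const t0 ((0 : ℝ), (1 : ℝ)))
    rw [map_zero, add_zero] at h3
    exact h3
  have d3 : HasDerivAt (fun s : ℝ => frc g β (t0, s))
      (fderiv ℝ (fderiv ℝ (mom g β)) (t0, 0) (0, 1) (1, 0)) 0 := by
    refine d1.congr_of_eventuallyEq ?_
    have h9 : Tendsto (fun s : ℝ => (t0, s)) (𝓝 0) (𝓝 (t0, (0 : ℝ))) :=
      (curve_s t0 0).continuousAt
    filter_upwards [h9.eventually (h.dmom hm)] with s hs using hs.symm
  refine ⟨_, d2, fun w => ?_⟩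
  rw [← hsym]
  -- the derivative of the force in the parameter
  have e1 := d3.clm_apply (hasDerivAt_const (0 : ℝ) w)
  rw [map_zero, add_zero] at e1
  have c1 : HasDerivAt (fun s : ℝ => β (t0, s)) (ds β (t0, 0)) 0 :=
    HasFDerivAt.comp_hasDerivAt (f := fun s : ℝ => (t0, s)) (0 : ℝ)
      (h.1.differentiableAt (by simp)).hasFDerivAt (curve_s t0 0)
  have c2 : HasDerivAt (fun s : ℝ => dt β (t0, s)) (fderiv ℝ (dt β) (t0, 0) (0, 1)) 0 :=
    HasFDerivAt.comp_hasDerivAt (f := fun s : ℝ => (t0, s)) (0 : ℝ)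
      ((contDiffAt_dt h.1).differentiableAt (by simp)).hasFDerivAt (curve_s t0 0)
  have c3 : HasDerivAt (fun s : ℝ => fderiv ℝ g (β (t0, s)) w)
      (ddg g (β (t0, 0)) (ds β (t0, 0)) w) 0 :=
    HasFDerivAt.comp_hasDerivAt (l := fun x => fderiv ℝ g x w) (f := fun s : ℝ => β (t0, s)) (0 : ℝ)
      (ddg_hasFDerivAt hm (β (t0, 0)) w) c1
  have c4 := ((c3.clm_apply c2).clm_apply c2).const_mul (1 / 2)
  have e2 : (fun s : ℝ => frc g β (t0, s) w) = fun s : ℝ => 1 / 2 *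
      fderiv ℝ g (β (t0, s)) w (dt β (t0, s)) (dt β (t0, s)) := by
    funext s
    exact frc_apply β (t0, s) w
  rw [e2] at e1
  rw [e1.unique c4]
  simp only [map_zero, add_zero, add_apply, zero_apply]
  rw [hm.fderiv_symm (β (t0, 0)) w (dt β (t0, 0)) (fderiv ℝ (dt β) (t0, 0) (0, 1))]
  ring

/-- The Wronskian. -/
noncomputable def wr (g : Fld n) (β δ : ℝ × ℝ → E n) (t : ℝ) : ℝ :=
  fderiv ℝ (mom g β) (t, 0) (0, 1) (ds δ (t, 0)) - fderiv ℝ (mom g δ) (t, 0) (0, 1) (ds β (t, 0))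

theorem ds_deriv {β : ℝ × ℝ → E n} {t : ℝ} (h : ContDiffAt ℝ ∞ β (t, 0)) :
    HasDerivAt (fun t => ds β (t, 0)) (fderiv ℝ (dt β) (t, 0) (0, 1)) t := by
  have hD2 : HasFDerivAt (fderiv ℝ β) (fderiv ℝ (fderiv ℝ β) (t, 0)) (t, 0) := by
    have h2 : ContDiffAt ℝ 1 (fderiv ℝ β) (t, 0) := h.fderiv_right (by
      rw [one_add_one_eq_two]
      exact WithTop.coe_le_coe.2 le_top)
    exact (h2.differentiableAt (by simp)).hasFDerivAt
  have hsym : fderiv ℝ (fderiv ℝ β) (t, 0) (0, 1) (1, 0) =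
      fderiv ℝ (fderiv ℝ β) (t, 0) (1, 0) (0, 1) :=
    (h.isSymmSndFDerivAt (by
      rw [minSmoothness_of_isRCLikeNormedField]
      exact WithTop.coe_le_coe.2 le_top)) (0, 1) (1, 0)
  have h4 : HasDerivAt (fun t : ℝ => fderiv ℝ β (t, 0)) (fderiv ℝ (fderiv ℝ β) (t, 0) (1, 0)) t :=
    HasFDerivAt.comp_hasDerivAt (f := fun t : ℝ => (t, (0 : ℝ))) t hD2 (curve_t t 0)
  have h3 := h4.clm_apply (hasDerivAt_const t ((0 : ℝ), (1 : ℝ)))
  rw [map_zero, add_zero] at h3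
  have h5 : fderiv ℝ (dt β) (t, 0) (0, 1) = fderiv ℝ (fderiv ℝ β) (t, 0) (0, 1) (1, 0) := by
    have h6 := hD2.clm_apply (hasFDerivAt_const ((1 : ℝ), (0 : ℝ)) (t, (0 : ℝ)))
    have h7 : fderiv ℝ (dt β) (t, 0) = _ := h6.fderiv
    rw [h7]
    simp
  rw [h5, hsym]
  exact h3

theorem wr_deriv (hm : IsMetric g) {β δ : ℝ × ℝ → E n} {t0 : ℝ} (hβ : Geo g β t0) (hδ : Geo g δ t0)
    (h1 : β (t0, 0) = δ (t0, 0)) (h2 : dt β (t0, 0) = dt δ (t0, 0)) :
    HasDerivAt (wr g β δ) 0 t0 := by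
  obtain ⟨L, hL, eL⟩ := hβ.ddmom hm
  obtain ⟨N, hN, eN⟩ := hδ.ddmom hm
  have h3 := (hL.clm_apply (ds_deriv hδ.1)).sub (hN.clm_apply (ds_deriv hβ.1))
  refine h3.congr_deriv ?_
  rw [eL, eN, mom_hasFDerivAt hm hβ.1, mom_hasFDerivAt hm hδ.1]
  rw [← h1, ← h2, ddg_symm hm (β (t0, 0)) (ds β (t0, 0)) (ds δ (t0, 0)) (dt β (t0, 0))]
  simp only [add_apply]
  change _ + (fderiv ℝ g (β (t0, 0)) (ds β (t0, 0)) _ _ + _) - (_ + (fderiv ℝ g (β (t0, 0)) (ds δ (t0, 0)) _ _ + _)) = 0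
  rw [hm.fderiv_symm (β (t0, 0)) (ds β (t0, 0)) (dt β (t0, 0)), hm.fderiv_symm (β (t0, 0)) (ds δ (t0, 0)) (dt β (t0, 0)),
    hm.symm (β (t0, 0)) (fderiv ℝ (dt β) (t0, 0) (0, 1))]
  ring

end Pool.Agent.W2helper20.BC
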