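import Pool.Agent.W2helper20.BC.Sym

/-!
# The mixed second derivative of the energy is symmetric
-/

set_option autoImplicit false

namespace Pool.Agent.W2helper20.BC

open Set Metric Filter Topology MeasureTheory
open scoped ContDiff InnerProductSpace
open Pool.Agent.Q176.BR

variable {n : ℕ} {g : Fld n}

theorem geo_vrt (hg : IsSimple g) {x y : E n} (hx : x ∈ M n) (hy : y ∈ ball (0 : E n) 1) (ξ : E n)
    {t0 : ℝ} (ht0 : t0 ∈ Ioo (0 : ℝ) 1) {z : E n} (hz : z ∈ ball (0 : E n) 1)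
    (hlg : lg g x z = t0 • lg g x y) : Geo g (vrt g x y ξ) t0 := by
  have hs := vrt_contDiffAt hg hx hy ξ hz hlg
  refine ⟨hs, ?_⟩
  have hD : ∀ᶠ p in 𝓝 (t0, (0 : ℝ)), ∀ᶠ q in 𝓝 p, DifferentiableAt ℝ (vrt g x y ξ) q := by
    have h2 : ContDiffAt ℝ 1 (vrt g x y ξ) (t0, 0) := hs.of_le (by
      exact WithTop.coe_le_coe.2 le_top)
    have h3 := h2.eventually (by simp)
    exact eventually_eventually_nhds.2 (h3.mono fun q hq => hq.differentiableAt (by simp))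
  have e1 : ∀ᶠ p : ℝ × ℝ in 𝓝 (t0, (0 : ℝ)), p.1 ∈ Ioo (0 : ℝ) 1 :=
    continuousAt_fst.eventually (Ioo_mem_nhds ht0.1 ht0.2)
  have e2 : ∀ᶠ p : ℝ × ℝ in 𝓝 (t0, (0 : ℝ)), y + p.2 • ξ ∈ ball (0 : E n) 1 := by
    have h2 : ContinuousAt (fun p : ℝ × ℝ => y + p.2 • ξ) (t0, 0) := by fun_prop
    refine h2.eventually (isOpen_ball.mem_nhds ?_)
    simpa using hy
  filter_upwards [hD, e1, e2] with p hp hp1 hp2
  obtain ⟨γ', u', hγ', h0', h1', hu0', -⟩ := hg.exists_geod hx (ball_subset_closedBall hp2)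
  have hq : ∀ᶠ t in 𝓝 p.1, dt (vrt g x y ξ) (t, p.2) = u' t := by
    have h5 : Tendsto (fun t : ℝ => (t, p.2)) (𝓝 p.1) (𝓝 p) := (curve_t p.1 p.2).continuousAt
    filter_upwards [h5.eventually hp, Ioo_mem_nhds hp1.1 hp1.2] with t ht ht1
    have h3 : HasDerivAt γ' (u' t) t :=
      (hγ'.vel t ⟨ht1.1.le, ht1.2.le⟩).hasDerivAt (Icc_mem_nhds ht1.1 ht1.2)
    have h4 : HasDerivAt (fun r : ℝ => vrt g x y ξ (r, p.2)) (fderiv ℝ (vrt g x y ξ) (t, p.2) (1, 0))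
        t := HasFDerivAt.comp_hasDerivAt (f := fun r : ℝ => (r, p.2)) t ht.hasFDerivAt
          (curve_t t p.2)
    have h6 : (fun r : ℝ => vrt g x y ξ (r, p.2)) =ᶠ[𝓝 t] γ' := by
      filter_upwards [Icc_mem_nhds ht1.1 ht1.2] with r hr
      rw [hγ'.eq_ex hg hr, h0', hu0']
      rfl
    exact h4.unique (h3.congr_of_eventuallyEq h6)
  obtain ⟨c, hc, hacc⟩ := hγ'.acc p.1 ⟨hp1.1.le, hp1.2.le⟩
  refine ⟨c, (hc.hasDerivAt (Icc_mem_nhds hp1.1 hp1.2)).congr_of_eventuallyEq hq, ?_⟩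
  have e3 : vrt g x y ξ p = γ' p.1 := by
    rw [hγ'.eq_ex hg ⟨hp1.1.le, hp1.2.le⟩, h0', hu0']
    rfl
  have e4 : dt (vrt g x y ξ) p = u' p.1 := hq.self_of_nhds
  rw [e3, e4]
  exact hacc

/-- The reflection of the time. -/
def rfl' (p : ℝ × ℝ) : ℝ × ℝ := (1 - p.1, p.2)

theorem rfl_contDiff : ContDiff ℝ ∞ rfl' := (contDiff_const.sub contDiff_fst).prodMk contDiff_snd

theorem rfl_hasFDerivAt (p : ℝ × ℝ) : HasFDerivAt rfl'
    ((-(ContinuousLinearMap.fst ℝ ℝ ℝ)).prod (ContinuousLinearMap.snd ℝ ℝ ℝ)) p := by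
  refine HasFDerivAt.prodMk ?_ hasFDerivAt_snd
  exact (hasFDerivAt_fst (𝕜 := ℝ) (p := p)).const_sub 1

theorem rev_dt {β : ℝ × ℝ → E n} {p : ℝ × ℝ} (h : DifferentiableAt ℝ β (rfl' p)) :
    dt (fun q => β (rfl' q)) p = -dt β (rfl' p) := by
  have h1 := HasFDerivAt.comp (g := β) p h.hasFDerivAt (rfl_hasFDerivAt p)
  have h2 : fderiv ℝ (fun q => β (rfl' q)) p = _ := h1.fderiv
  unfold dt
  rw [h2]
  simp only [ContinuousLinearMap.comp_apply, ContinuousLinearMap.prod_apply]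
  rw [← map_neg]
  congr 1
  simp

theorem rev_ds {β : ℝ × ℝ → E n} {p : ℝ × ℝ} (h : DifferentiableAt ℝ β (rfl' p)) :
    ds (fun q => β (rfl' q)) p = ds β (rfl' p) := by
  have h1 := HasFDerivAt.comp (g := β) p h.hasFDerivAt (rfl_hasFDerivAt p)
  have h2 : fderiv ℝ (fun q => β (rfl' q)) p = _ := h1.fderiv
  unfold ds
  rw [h2]
  simp only [ContinuousLinearMap.comp_apply, ContinuousLinearMap.prod_apply]
  congr 1
  simp

theorem rev_contDiffAt {β : ℝ × ℝ → E n} {p : ℝ × ℝ} (h : ContDiffAt ℝ ∞ β (rfl' p)) :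
    ContDiffAt ℝ ∞ (fun q => β (rfl' q)) p := ContDiffAt.comp (g := β) p h rfl_contDiff.contDiffAt

theorem rev_ev {β : ℝ × ℝ → E n} {p : ℝ × ℝ} (h : ContDiffAt ℝ ∞ β (rfl' p)) :
    ∀ᶠ q in 𝓝 p, DifferentiableAt ℝ β (rfl' q) := by
  have h2 : ContDiffAt ℝ 1 β (rfl' p) := h.of_le (by
    exact WithTop.coe_le_coe.2 le_top)
  have h3 := (h2.eventually (by simp)).mono fun q hq => hq.differentiableAt (by simp)
  exact rfl_contDiff.continuous.continuousAt.eventually h3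

theorem rev_dsdt {β : ℝ × ℝ → E n} {p : ℝ × ℝ} (h : ContDiffAt ℝ ∞ β (rfl' p)) :
    fderiv ℝ (dt (fun q => β (rfl' q))) p (0, 1) = -fderiv ℝ (dt β) (rfl' p) (0, 1) := by
  have h0 : dt (fun q => β (rfl' q)) =ᶠ[𝓝 p] fun q => -dt β (rfl' q) := by
    filter_upwards [rev_ev h] with q hq using rev_dt hq
  have h1 : HasFDerivAt (dt β) (fderiv ℝ (dt β) (rfl' p)) (rfl' p) :=
    ((contDiffAt_dt h).differentiableAt (by simp)).hasFDerivAt
  have h2 := (HasFDerivAt.comp (g := dt β) p h1 (rfl_hasFDerivAt p)).neg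
  have h3 : HasFDerivAt (fun q => -dt β (rfl' q)) _ p := h2
  rw [h0.fderiv_eq, h3.fderiv]
  simp only [neg_apply, ContinuousLinearMap.comp_apply, ContinuousLinearMap.prod_apply]
  congr 2
  simp

theorem Geo.reverse {β : ℝ × ℝ → E n} {t0 : ℝ} (h : Geo g β (1 - t0)) :
    Geo g (fun q => β (rfl' q)) t0 := by
  have h0 : ContDiffAt ℝ ∞ β (rfl' (t0, 0)) := h.1
  refine ⟨rev_contDiffAt h0, ?_⟩
  have hc : Tendsto rfl' (𝓝 (t0, (0 : ℝ))) (𝓝 (1 - t0, (0 : ℝ))) :=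
    rfl_contDiff.continuous.continuousAt
  filter_upwards [hc.eventually h.2, eventually_eventually_nhds.2 (rev_ev h0)] with p hp hq
  obtain ⟨c, h1, h2⟩ := hp
  refine ⟨c, ?_, ?_⟩
  · have h3 : HasDerivAt (fun t : ℝ => 1 - t) (-1) p.1 := by
      simpa using (hasDerivAt_id p.1).const_sub 1
    have h4 : HasDerivAt (fun t : ℝ => dt β (1 - t, p.2)) ((-1 : ℝ) • c) p.1 :=
      HasDerivAt.scomp (g₁ := fun t : ℝ => dt β (t, p.2)) p.1 h1 h3
    have h5 := h4.neg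
    have h6 : (fun t : ℝ => dt (fun q => β (rfl' q)) (t, p.2)) =ᶠ[𝓝 p.1]
        (fun t : ℝ => -dt β (1 - t, p.2)) := by
      have h7 : Tendsto (fun t : ℝ => (t, p.2)) (𝓝 p.1) (𝓝 p) := (curve_t p.1 p.2).continuousAt
      filter_upwards [h7.eventually hq] with t ht using rev_dt ht
    refine (HasDerivAt.congr_of_eventuallyEq (f := fun t : ℝ => -dt β (1 - t, p.2)) ?_ h6)
    refine h5.congr_deriv ?_
    simp
  · rw [rev_dt hq.self_of_nhds]
    intro w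
    have h3 := h2 w
    simp only [map_neg, neg_apply, neg_neg]
    change g (β (rfl' p)) c w = 1 / 2 * fderiv ℝ g (β (rfl' p)) w (dt β (rfl' p)) (dt β (rfl' p)) -
      fderiv ℝ g (β (rfl' p)) (dt β (rfl' p)) (dt β (rfl' p)) w
    exact h3

theorem wr_cont (hm : IsMetric g) {β δ : ℝ × ℝ → E n} {t : ℝ} (hβ : ContDiffAt ℝ ∞ β (t, 0))
    (hδ : ContDiffAt ℝ ∞ δ (t, 0)) : ContinuousAt (wr g β δ) t := by
  have key : ∀ β : ℝ × ℝ → E n, ContDiffAt ℝ ∞ β (t, 0) →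
      ContinuousAt (fun t : ℝ => fderiv ℝ (mom g β) (t, 0) (0, 1)) t := by
    intro β hβ
    have h1 : ContDiffAt ℝ 0 (fderiv ℝ (mom g β)) (t, 0) := (contDiffAt_mom hm hβ).fderiv_right (by
      rw [zero_add]
      exact WithTop.coe_le_coe.2 le_top)
    have h2 : ContinuousAt (fun t : ℝ => fderiv ℝ (mom g β) (t, 0)) t :=
      ContinuousAt.comp (g := fderiv ℝ (mom g β)) (f := fun t : ℝ => (t, (0 : ℝ))) h1.continuousAt
        (curve_t t 0).continuousAt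
    exact h2.clm_apply continuousAt_const
  exact ((key β hβ).clm_apply (ds_deriv hδ).continuousAt).sub
    ((key δ hδ).clm_apply (ds_deriv hβ).continuousAt)

theorem dlg_self (hg : IsSimple g) {x : E n} (hx : x ∈ ball (0 : E n) 1) (v : E n) :
    dlg g x x v = v := by
  have hxM : x ∈ M n := ball_subset_closedBall hx
  have h0 : (0 : E n) ∈ lg g x '' ball 0 1 := ⟨x, hx, hg.lg_self hxM⟩
  have hev : ∀ᶠ r : ℝ in 𝓝[>] 0, r • v ∈ lg g x '' ball 0 1 := by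
    have h1 : Tendsto (fun r : ℝ => r • v) (𝓝 0) (𝓝 (0 : E n)) := by
      have h2 : ContinuousAt (fun r : ℝ => r • v) 0 := by fun_prop
      simpa [ContinuousAt] using h2
    exact (h1.eventually ((hg.isOpen_lg hxM).mem_nhds h0)).filter_mono nhdsWithin_le_nhds
  obtain ⟨r, hr, hr0⟩ := (hev.and self_mem_nhdsWithin).exists
  obtain ⟨y, hy, hyr⟩ := hr
  obtain ⟨γ, u, hγ, hγ0, h1, hu0, hu1⟩ := hg.exists_geod hxM (ball_subset_closedBall hy)
  have h2 := hγ.dlg_vel hg (t := 0) ⟨le_rfl, zero_le_one⟩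
  rw [hγ0, hu0, hyr, map_smul] at h2
  exact smul_right_injective _ hr0.ne' h2

theorem ilg_self (hg : IsSimple g) {x : E n} (hx : x ∈ ball (0 : E n) 1) (v : E n) :
    ilg g x x v = v := by
  have h1 := hg.ilg_dlg (ball_subset_closedBall hx) (ball_subset_closedBall hx) v
  rwa [dlg_self hg hx] at h1

/-- The mixed derivative of the variation at the starting point. -/
theorem vrt_dsdt_zero (hg : IsSimple g) {x y : E n} (hx : x ∈ ball (0 : E n) 1)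
    (hy : y ∈ ball (0 : E n) 1) (ξ : E n) :
    fderiv ℝ (dt (vrt g x y ξ)) (0, 0) (0, 1) = dlg g x y ξ := by
  have hxM : x ∈ M n := ball_subset_closedBall hx
  have hlg0 : lg g x x = (0 : ℝ) • lg g x y := by rw [hg.lg_self hxM, zero_smul]
  have hs := vrt_contDiffAt hg hxM hy ξ hx hlg0
  have h1 : HasFDerivAt (dt (vrt g x y ξ)) (fderiv ℝ (dt (vrt g x y ξ)) (0, 0)) (0, 0) :=
    ((contDiffAt_dt hs).differentiableAt (by simp)).hasFDerivAt
  have h2 : HasDerivAt (fun s : ℝ => dt (vrt g x y ξ) (0, s))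
      (fderiv ℝ (dt (vrt g x y ξ)) (0, 0) (0, 1)) 0 :=
    HasFDerivAt.comp_hasDerivAt (f := fun s : ℝ => ((0 : ℝ), s)) (0 : ℝ) h1 (curve_s 0 0)
  have h3 : (fun s : ℝ => dt (vrt g x y ξ) (0, s)) =ᶠ[𝓝 0] fun s : ℝ => lg g x (y + s • ξ) := by
    have hD : ∀ᶠ q in 𝓝 ((0 : ℝ), (0 : ℝ)), DifferentiableAt ℝ (vrt g x y ξ) q := by
      have h2 : ContDiffAt ℝ 1 (vrt g x y ξ) (0, 0) := hs.of_le (by
        exact WithTop.coe_le_coe.2 le_top)
      exact (h2.eventually (by simp)).mono fun q hq => hq.differentiableAt (by simp)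
    have h5 : Tendsto (fun s : ℝ => ((0 : ℝ), s)) (𝓝 0) (𝓝 ((0 : ℝ), (0 : ℝ))) :=
      (curve_s 0 0).continuousAt
    filter_upwards [h5.eventually hD] with s hs'
    have h6 : HasDerivAt (fun t : ℝ => vrt g x y ξ (t, s)) (dt (vrt g x y ξ) (0, s)) 0 :=
      HasFDerivAt.comp_hasDerivAt (f := fun t : ℝ => (t, s)) (0 : ℝ) hs'.hasFDerivAt (curve_t 0 s)
    refine h6.unique ?_
    have h7 : HasDerivAt (fun t : ℝ => t • lg g x (y + s • ξ)) (lg g x (y + s • ξ)) 0 := by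
      simpa using (hasDerivAt_id (0 : ℝ)).smul_const (lg g x (y + s • ξ))
    have h8 : HasFDerivAt (ex g x) (ilg g x x) ((fun t : ℝ => t • lg g x (y + s • ξ)) 0) := by
      simp only [zero_smul]
      rw [← hg.lg_self hxM]
      exact hg.hasFDerivAt_ex hxM hx
    have h9 := HasFDerivAt.comp_hasDerivAt (f := fun t : ℝ => t • lg g x (y + s • ξ)) (0 : ℝ) h8 h7
    rw [ilg_self hg hx] at h9
    exact h9
  exact (h2.congr_of_eventuallyEq h3.symm).unique (lg_curve hg hxM hy ξ)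

/-- **SYM.** -/
theorem p_sym : P_SYM := by
  intro n g hg x hx y hy ξ η
  have hm := hg.toIsMetric
  have hxM : x ∈ M n := ball_subset_closedBall hx
  have hyM : y ∈ M n := ball_subset_closedBall hy
  rcases eq_or_ne x y with rfl | hxy
  · rw [dlg_self hg hx, dlg_self hg hx]
    exact hm.symm x _ _
  obtain ⟨γ, u, hγ, h0, h1, hu0, hu1⟩ := hg.exists_geod hxM hyM
  have hu : u 0 ≠ 0 := by
    rw [hu0]
    exact hg.lg_ne_zero hxM hyM hxy
  have hin : ∀ t ∈ Icc (0 : ℝ) 1, γ t ∈ ball (0 : E n) 1 := by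
    intro t ht
    rcases ht.1.eq_or_lt with rfl | h3
    · rw [h0]; exact hx
    rcases ht.2.eq_or_lt with rfl | h4
    · rw [h1]; exact hy
    exact mem_ball_zero_iff.2 (hγ.inner_mem hg hu ⟨h3, h4⟩)
  have hlg : ∀ t ∈ Icc (0 : ℝ) 1, lg g x (γ t) = t • lg g x y := by
    intro t ht
    have h2 := hγ.lg_eq hg ht
    rwa [h0, hu0] at h2
  have hlg' : ∀ t ∈ Icc (0 : ℝ) 1, lg g y (γ t) = (1 - t) • lg g y x := by
    intro t ht
    have h2 := hγ.reverse.lg_eq hg (t := 1 - t) ⟨by linarith [ht.2], by linarith [ht.1]⟩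
    simp only [sub_zero, sub_sub_cancel, h1] at h2
    rw [h2, hg.lg_symm hxM hyM, hu1]
  set β := vrt g x y ξ with hβ
  set δ := fun q => vrt g y x η (rfl' q) with hδ
  have sβ : ∀ t ∈ Icc (0 : ℝ) 1, ContDiffAt ℝ ∞ β (t, 0) := fun t ht =>
    vrt_contDiffAt hg hxM hy ξ (hin t ht) (hlg t ht)
  have sδ' : ∀ t ∈ Icc (0 : ℝ) 1, ContDiffAt ℝ ∞ (vrt g y x η) (rfl' (t, 0)) := fun t ht =>
    vrt_contDiffAt hg hyM hx η (hin t ht) (hlg' t ht)
  have sδ : ∀ t ∈ Icc (0 : ℝ) 1, ContDiffAt ℝ ∞ δ (t, 0) := fun t ht => rev_contDiffAt (sδ' t ht)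
  have gβ : ∀ t ∈ Ioo (0 : ℝ) 1, Geo g β t := fun t ht =>
    geo_vrt hg hxM hy ξ ht (hin t ⟨ht.1.le, ht.2.le⟩) (hlg t ⟨ht.1.le, ht.2.le⟩)
  have gδ : ∀ t ∈ Ioo (0 : ℝ) 1, Geo g δ t := fun t ht => Geo.reverse
    (geo_vrt hg hyM hx η ⟨by linarith [ht.2], by linarith [ht.1]⟩ (hin t ⟨ht.1.le, ht.2.le⟩)
      (hlg' t ⟨ht.1.le, ht.2.le⟩))
  -- the base curves
  have bβ : ∀ t ∈ Icc (0 : ℝ) 1, β (t, 0) = γ t := by
    intro t ht
    rw [hγ.eq_ex hg ht, h0, hu0, hβ]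
    simp [vrt]
  have bδ : ∀ t ∈ Icc (0 : ℝ) 1, δ (t, 0) = γ t := by
    intro t ht
    have h2 := hγ.reverse.eq_ex hg (t := 1 - t) ⟨by linarith [ht.2], by linarith [ht.1]⟩
    simp only [sub_zero, sub_sub_cancel, h1] at h2
    rw [h2, hδ]
    simp only [vrt, rfl', zero_smul, add_zero]
    rw [hg.lg_symm hxM hyM, hu1]
  have tβ : ∀ t ∈ Ioo (0 : ℝ) 1, dt β (t, 0) = u t := by
    intro t ht
    have h3 : HasDerivAt γ (u t) t :=
      (hγ.vel t ⟨ht.1.le, ht.2.le⟩).hasDerivAt (Icc_mem_nhds ht.1 ht.2)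
    have h4 : HasDerivAt (fun t : ℝ => β (t, 0)) (dt β (t, 0)) t :=
      HasFDerivAt.comp_hasDerivAt (f := fun t : ℝ => (t, (0 : ℝ))) t
        ((sβ t ⟨ht.1.le, ht.2.le⟩).differentiableAt (by simp)).hasFDerivAt (curve_t t 0)
    refine h4.unique (h3.congr_of_eventuallyEq ?_)
    filter_upwards [Icc_mem_nhds ht.1 ht.2] with s hs
    exact bβ s hs
  have tδ : ∀ t ∈ Ioo (0 : ℝ) 1, dt δ (t, 0) = u t := by
    intro t ht
    have h3 : HasDerivAt γ (u t) t :=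
      (hγ.vel t ⟨ht.1.le, ht.2.le⟩).hasDerivAt (Icc_mem_nhds ht.1 ht.2)
    have h4 : HasDerivAt (fun t : ℝ => δ (t, 0)) (dt δ (t, 0)) t :=
      HasFDerivAt.comp_hasDerivAt (f := fun t : ℝ => (t, (0 : ℝ))) t
        ((sδ t ⟨ht.1.le, ht.2.le⟩).differentiableAt (by simp)).hasFDerivAt (curve_t t 0)
    refine h4.unique (h3.congr_of_eventuallyEq ?_)
    filter_upwards [Icc_mem_nhds ht.1 ht.2] with s hs
    exact bδ s hs
  obtain ⟨c, -, hc⟩ := exists_hasDerivAt_eq_slope (wr g β δ) (fun _ => (0 : ℝ)) zero_lt_one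
    (fun t ht => (wr_cont hm (sβ t ht) (sδ t ht)).continuousWithinAt)
    (fun t ht => wr_deriv hm (gβ t ht) (gδ t ht) (by
      rw [bβ t ⟨ht.1.le, ht.2.le⟩, bδ t ⟨ht.1.le, ht.2.le⟩]) (by rw [tβ t ht, tδ t ht]))
  have m0 : (0 : ℝ) ∈ Icc (0 : ℝ) 1 := ⟨le_rfl, zero_le_one⟩
  have m1 : (1 : ℝ) ∈ Icc (0 : ℝ) 1 := ⟨zero_le_one, le_rfl⟩
  have hlgx : lg g x x = (0 : ℝ) • lg g x y := by rw [hg.lg_self hxM, zero_smul]
  have hlgy : lg g y y = (0 : ℝ) • lg g y x := by rw [hg.lg_self hyM, zero_smul]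
  have dsβ0 : ds β (0, 0) = 0 := by
    have h2 := vrt_s hg hxM hy ξ hx hlgx
    rw [zero_smul] at h2
    exact h2
  have dsβ1 : ds β (1, 0) = ξ := by
    have h2 := vrt_s hg hxM hy ξ (t := 1) hy (by rw [one_smul])
    rw [one_smul, hg.ilg_dlg hxM hyM] at h2
    exact h2
  have dsδ0 : ds δ (0, 0) = η := by
    have h2 := vrt_s hg hyM hx η (t := 1) hx (by rw [one_smul])
    rw [one_smul, hg.ilg_dlg hyM hxM] at h2
    have h3 : ds δ (0, 0) = ds (vrt g y x η) (rfl' (0, 0)) :=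
      rev_ds ((sδ' 0 m0).differentiableAt (by simp))
    rw [h3]
    simp only [rfl', sub_zero]
    exact h2
  have dsδ1 : ds δ (1, 0) = 0 := by
    have h2 := vrt_s hg hyM hx η hy hlgy
    rw [zero_smul] at h2
    have h3 : ds δ (1, 0) = ds (vrt g y x η) (rfl' (1, 0)) :=
      rev_ds ((sδ' 1 m1).differentiableAt (by simp))
    rw [h3]
    simp only [rfl', sub_self]
    exact h2
  have mβ0 : fderiv ℝ (dt β) (0, 0) (0, 1) = dlg g x y ξ := vrt_dsdt_zero hg hx hy ξ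
  have mδ1 : fderiv ℝ (dt δ) (1, 0) (0, 1) = -dlg g y x η := by
    have h2 := rev_dsdt (sδ' 1 m1)
    rw [h2]
    simp only [rfl', sub_self]
    rw [vrt_dsdt_zero hg hy hx η]
  have w0 : wr g β δ 0 = g x (dlg g x y ξ) η := by
    unfold wr
    rw [dsβ0, dsδ0, map_zero, sub_zero, mom_hasFDerivAt hm (sβ 0 m0), mβ0, bβ 0 m0, h0]
    change (fderiv ℝ g x (ds β (0, 0)) (dt β (0, 0)) + _) η = _
    rw [dsβ0]
    simp
  have w1 : wr g β δ 1 = g y (dlg g y x η) ξ := by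
    unfold wr
    rw [dsβ1, dsδ1, map_zero, zero_sub, mom_hasFDerivAt hm (sδ 1 m1), mδ1, bδ 1 m1, h1]
    change -(fderiv ℝ g y (ds δ (1, 0)) (dt δ (1, 0)) + _) ξ = _
    rw [dsδ1]
    simp
  rw [w0, w1] at hc
  simp only [sub_zero, div_one] at hc
  linarith

end Pool.Agent.W2helper20.BC
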